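import Pool.Agent.H30.PM.ER

/-!
# [H30 PM BC] A non attaining `c I + K` of norm at most `‖c‖` gives the BCAP

`X` reflexive, `K` compact, `T = c I + K`, `‖T‖ ≤ ‖c‖`, `T` does not attain its norm. Then `X` has the
bounded compact approximation property.

PROOF.  If all vectors of `X` are `0` the BCAP is trivial (`K = 0`). Otherwise `c ≠ 0`: if `c = 0`
then `‖T‖ = 0` and every vector of norm one attains. For `x ≠ 0`: `‖T x‖ < ‖T‖ ‖x‖` (otherwise
`x/‖x‖` attains), so `‖T x‖ < ‖c‖ ‖x‖`. Let `T' = c⁻¹ T = I + c⁻¹ K`. `‖T' x‖ < ‖x‖` for `x ≠ 0`, so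
`ergodic` applies: `A n = avgOp T' (n+1)` tends to `0` pointwise, `‖A n‖ ≤ 1`, and
`C n = I - A n` is compact (`I - T'^j` is compact by induction on `j`, as in the proved file
`Pool/Agent/H30/DV/NA.lean`), `‖C n‖ ≤ 2`, `C n x → x` for all `x`. BCAP with constant `2`: let `A`
be a compact set, `ε > 0`; choose a finite `ε/4`-net `F` of `A`
(`IsCompact.totallyBounded`/`finite_cover_balls`), and `n` with `‖A n y‖ ≤ ε/4` for `y ∈ F`;
for `x ∈ A` take `y ∈ F` with `‖x - y‖ ≤ ε/4`: `‖C n x - x‖ = ‖A n x‖ ≤ ‖A n y‖ + ‖x - y‖ ≤ ε`.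
-/

namespace Pool.H30.PM

open Filter Topology

section aux

variable {𝕜 : Type*} [RCLike 𝕜]

private theorem na_pow {E : Type*} [NormedAddCommGroup E] [NormedSpace 𝕜 E] (T : E →L[𝕜] E)
    (hT : IsCompactOperator (ContinuousLinearMap.id 𝕜 E - T)) (j : ℕ) :
    IsCompactOperator (ContinuousLinearMap.id 𝕜 E - T ^ j) := by
  induction j with
  | zero =>
    have h0 : (ContinuousLinearMap.id 𝕜 E - T ^ 0) = 0 := by
      rw [pow_zero]
      exact sub_self _
    rw [h0]
    exact isCompactOperator_zero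
  | succ j ih =>
    have h1 : (ContinuousLinearMap.id 𝕜 E - T ^ (j + 1)) =
        (ContinuousLinearMap.id 𝕜 E - T ^ j) +
          (T ^ j).comp (ContinuousLinearMap.id 𝕜 E - T) := by
      ext x
      simp [pow_succ]
    rw [h1]
    exact ih.add (hT.clm_comp (T ^ j))

private theorem na_avg {E : Type*} [NormedAddCommGroup E] [NormedSpace 𝕜 E] (T : E →L[𝕜] E)
    (hT : IsCompactOperator (ContinuousLinearMap.id 𝕜 E - T)) (n : ℕ) :
    IsCompactOperator (ContinuousLinearMap.id 𝕜 E - avgOp T (n + 1)) := by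
  have h1 : ∀ s : Finset ℕ,
      IsCompactOperator (∑ j ∈ s, (ContinuousLinearMap.id 𝕜 E - T ^ j) : E →L[𝕜] E) := by
    intro s
    classical
    induction s using Finset.induction_on with
    | empty =>
      rw [Finset.sum_empty]
      exact isCompactOperator_zero
    | insert a s ha ih =>
      rw [Finset.sum_insert ha]
      exact (na_pow T hT a).add ih
  have h2 : ContinuousLinearMap.id 𝕜 E - avgOp T (n + 1) =
      (((n + 1 : ℕ) : 𝕜)⁻¹) • ∑ j ∈ Finset.range (n + 1), (ContinuousLinearMap.id 𝕜 E - T ^ j) := by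
    rw [Finset.sum_sub_distrib, Finset.sum_const, Finset.card_range, smul_sub,
      ← Nat.cast_smul_eq_nsmul 𝕜, smul_smul, inv_mul_cancel₀ (Nat.cast_ne_zero.2 (by omega)),
      one_smul]
    rfl
  rw [h2]
  exact (h1 _).smul _

end aux

private theorem bcap_of_seq {𝕜 : Type*} [RCLike 𝕜] {X : Type*} [NormedAddCommGroup X]
    [NormedSpace 𝕜 X] (A : ℕ → (X →L[𝕜] X)) (h1 : ∀ n, ‖A n‖ ≤ 1)
    (h2 : ∀ x, Tendsto (fun n => A n x) atTop (𝓝 0))
    (h3 : ∀ n, IsCompactOperator (ContinuousLinearMap.id 𝕜 X - A n)) : BCAP 𝕜 X := by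
  refine ⟨2, fun S hS ε hε => ?_⟩
  have htb := hS.totallyBounded
  rw [Metric.totallyBounded_iff] at htb
  obtain ⟨F, hFfin, hF⟩ := htb (ε / 4) (by positivity)
  have hev : ∀ᶠ n in atTop, ∀ y ∈ F, ‖A n y‖ < ε / 4 := by
    rw [Filter.eventually_all_finite hFfin]
    intro y _
    have := (h2 y).norm
    rw [norm_zero] at this
    exact this.eventually_lt_const (by positivity)
  obtain ⟨n, hn⟩ := hev.exists
  refine ⟨ContinuousLinearMap.id 𝕜 X - A n, h3 n, ?_, ?_⟩
  · refine (norm_sub_le _ _).trans ?_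
    have h4 : ‖ContinuousLinearMap.id 𝕜 X‖ ≤ 1 := ContinuousLinearMap.norm_id_le
    have h5 := h1 n
    linarith
  · intro x hx
    obtain ⟨y, hyF, hxy⟩ := Set.mem_iUnion₂.mp (hF hx)
    rw [Metric.mem_ball, dist_eq_norm] at hxy
    have e1 : (ContinuousLinearMap.id 𝕜 X - A n) x - x = -(A n y + A n (x - y)) := by
      rw [ContinuousLinearMap.sub_apply, ContinuousLinearMap.id_apply, map_sub]
      abel
    rw [e1, norm_neg]
    have h6 : ‖A n (x - y)‖ ≤ ‖x - y‖ := by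
      refine ((A n).le_opNorm _).trans ?_
      calc ‖A n‖ * ‖x - y‖ ≤ 1 * ‖x - y‖ := mul_le_mul_of_nonneg_right (h1 n) (norm_nonneg _)
        _ = ‖x - y‖ := one_mul _
    have h7 := hn y hyF
    have h8 := norm_add_le (A n y) (A n (x - y))
    linarith

theorem bcap_of_nonattaining {𝕜 : Type*} [RCLike 𝕜] {X : Type*} [NormedAddCommGroup X]
    [NormedSpace 𝕜 X] (hr : Reflexive 𝕜 X) (c : 𝕜) (K : X →L[𝕜] X)
    (hK : IsCompactOperator K) (h : ‖c • ContinuousLinearMap.id 𝕜 X + K‖ ≤ ‖c‖)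
    (hn : ¬ Attains (c • ContinuousLinearMap.id 𝕜 X + K)) : BCAP 𝕜 X := by
  obtain ⟨T, hT⟩ : ∃ T : X →L[𝕜] X, T = c • ContinuousLinearMap.id 𝕜 X + K := ⟨_, rfl⟩
  rw [← hT] at h hn
  have hTx : ∀ x : X, x ≠ 0 → ‖T x‖ < ‖c‖ * ‖x‖ := by
    intro x hx
    by_contra hlt
    push Not at hlt
    have hx0 : 0 < ‖x‖ := norm_pos_iff.2 hx
    have h1 : ‖T x‖ = ‖T‖ * ‖x‖ := le_antisymm (T.le_opNorm x)
      ((mul_le_mul_of_nonneg_right h hx0.le).trans hlt)
    refine hn ⟨((‖x‖ : 𝕜)⁻¹) • x, ?_, ?_⟩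
    · rw [norm_smul, norm_inv, RCLike.norm_ofReal, abs_norm, inv_mul_cancel₀ hx0.ne']
    · rw [map_smul, norm_smul, norm_inv, RCLike.norm_ofReal, abs_norm, h1]
      field_simp
  by_cases hc : c = 0
  · have hX0 : ∀ x : X, x = 0 := by
      intro x
      by_contra hx
      have h1 := hTx x hx
      rw [hc, norm_zero, zero_mul] at h1
      exact absurd h1 (not_lt.2 (norm_nonneg _))
    refine bcap_of_seq (fun _ => 0) (fun n => ContinuousLinearMap.opNorm_le_bound _ zero_le_one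
      (fun x => by simp)) (fun x => by simp) (fun n => ?_)
    have h0 : (ContinuousLinearMap.id 𝕜 X - 0 : X →L[𝕜] X) = 0 := by
      ext1 x
      rw [hX0 x, map_zero, map_zero]
    rw [h0]
    exact isCompactOperator_zero
  · have hc0 : 0 < ‖c‖ := norm_pos_iff.2 hc
    obtain ⟨S, hS⟩ : ∃ S : X →L[𝕜] X, S = c⁻¹ • T := ⟨_, rfl⟩
    have hSx : ∀ x, ‖S x‖ = ‖c‖⁻¹ * ‖T x‖ := by
      intro x
      rw [hS, smul_apply, norm_smul, norm_inv]
    have hSlt : ∀ x : X, x ≠ 0 → ‖S x‖ < ‖x‖ := by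
      intro x hx
      rw [hSx, inv_mul_lt_iff₀ hc0]
      exact hTx x hx
    have hSle : ∀ x : X, ‖S x‖ ≤ ‖x‖ := by
      intro x
      by_cases hx : x = 0
      · rw [hx, map_zero]
      · exact (hSlt x hx).le
    have hSc : IsCompactOperator (ContinuousLinearMap.id 𝕜 X - S) := by
      have h1 : ContinuousLinearMap.id 𝕜 X - S = (-c⁻¹) • K := by
        ext1 x
        rw [hS, hT]
        have e1 : (ContinuousLinearMap.id 𝕜 X - c⁻¹ • (c • ContinuousLinearMap.id 𝕜 X + K)) x =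
            x - c⁻¹ • (c • x + K x) := rfl
        have e2 : ((-c⁻¹) • K) x = -(c⁻¹ • K x) := by
          rw [smul_apply, neg_smul]
        rw [e1, e2, smul_add, smul_smul, inv_mul_cancel₀ hc, one_smul]
        abel
      rw [h1]
      exact hK.smul (-c⁻¹)
    refine bcap_of_seq (fun n => avgOp S (n + 1)) (fun n => ?_) (fun x => ?_)
      (fun n => na_avg S hSc n)
    · exact ContinuousLinearMap.opNorm_le_bound _ zero_le_one
        (fun x => by rw [one_mul]; exact er_avg_le S hSle (n + 1) x)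
    · exact (ergodic hr S hSlt x).comp (tendsto_add_atTop_nat 1)

end Pool.H30.PM
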