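import Mathlib

/-!
# H30/PM/Basic: spaces with property (M) and operators `c I + K` (MP_8d0949_an)

Definitions used by all modules `Pool.Agent.H30.PM.*`.
-/

namespace Pool.H30.PM

open Filter Topology

variable (𝕜 : Type*) [RCLike 𝕜] (X : Type*) [NormedAddCommGroup X] [NormedSpace 𝕜 X]

/-- `WN 𝕜 z`: the sequence `z` is weakly null. -/
def WN {X : Type*} [NormedAddCommGroup X] [NormedSpace 𝕜 X] (z : ℕ → X) : Prop :=
  ∀ φ : X →L[𝕜] 𝕜, Tendsto (fun n => φ (z n)) atTop (𝓝 0)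

/-- Kalton's property (M). -/
def PropertyM : Prop :=
  ∀ (u v : X) (z : ℕ → X), ‖u‖ = ‖v‖ → WN 𝕜 z →
    limsup (fun n => ‖u + z n‖) atTop = limsup (fun n => ‖v + z n‖) atTop

/-- Reflexivity: the canonical map into the bidual is surjective. -/
def Reflexive : Prop := Function.Surjective (NormedSpace.inclusionInDoubleDual 𝕜 X)

/-- The bounded compact approximation property. -/
def BCAP : Prop :=
  ∃ C : ℝ, ∀ A : Set X, IsCompact A → ∀ ε : ℝ, 0 < ε →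
    ∃ K : X →L[𝕜] X, IsCompactOperator K ∧ ‖K‖ ≤ C ∧ ∀ x ∈ A, ‖K x - x‖ ≤ ε

/-- `Attains T`: the operator `T` attains its norm at a vector of norm one. -/
def Attains {𝕜 : Type*} [RCLike 𝕜] {X : Type*} [NormedAddCommGroup X] [NormedSpace 𝕜 X]
    (T : X →L[𝕜] X) : Prop :=
  ∃ x : X, ‖x‖ = 1 ∧ ‖T x‖ = ‖T‖

/-- The averages `A n = (1/n) ∑_{j<n} T^j`. -/
noncomputable def avgOp {𝕜 : Type*} [RCLike 𝕜] {X : Type*} [NormedAddCommGroup X]
    [NormedSpace 𝕜 X] (T : X →L[𝕜] X) (n : ℕ) : X →L[𝕜] X :=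
  ((n : 𝕜)⁻¹) • ∑ j ∈ Finset.range n, T ^ j

end Pool.H30.PM
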