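import Pool.Agent.H30.PM.Basic

/-!
# [H30 PM CN] Compact operators map bounded weakly null sequences to norm null sequences

PROOF.  Suppose `‖K (z n)‖` does not tend to `0`: `δ > 0` and a strictly increasing `φ` with
`‖K (z (φ n))‖ ≥ δ` (`Filter.extraction_of_frequently_atTop`). All `K (z n)` lie in the compact set
`closure (K '' closedBall 0 C)` (`IsCompactOperator.isCompact_closure_image_closedBall`), so there
are a strictly increasing `ψ` and `y` with `K (z (φ (ψ n))) → y`, `‖y‖ ≥ δ`. For every functional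
`f`, `f (K (z (φ (ψ n)))) → 0` (the composition `f ∘ K` is a functional, `z` weakly null), and it
tends to `f y`; so `f y = 0` for all `f`, `y = 0` (`NormedSpace.eq_zero_of_forall_dual_eq_zero`),
contradiction.
-/

namespace Pool.H30.PM

open Filter Topology

theorem compact_null {𝕜 : Type*} [RCLike 𝕜] {X : Type*} [NormedAddCommGroup X]
    [NormedSpace 𝕜 X] (K : X →L[𝕜] X) (hK : IsCompactOperator K)
    (z : ℕ → X) (C : ℝ) (hC : ∀ n, ‖z n‖ ≤ C) (hz : WN 𝕜 z) :
    Tendsto (fun n => ‖K (z n)‖) atTop (𝓝 0) := by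
  classical
  by_contra hcon
  rw [Metric.tendsto_atTop] at hcon
  push Not at hcon
  obtain ⟨δ, hδ, hfr⟩ := hcon
  have hfreq : ∃ᶠ n in atTop, δ ≤ ‖K (z n)‖ := by
    rw [frequently_atTop]
    intro a
    obtain ⟨n, hn1, hn2⟩ := hfr a
    refine ⟨n, hn1, ?_⟩
    rwa [Real.dist_eq, sub_zero, abs_of_nonneg (norm_nonneg _)] at hn2
  obtain ⟨φ, hφ, hφδ⟩ := extraction_of_frequently_atTop hfreq
  have hcomp : IsCompact (closure (K '' Metric.closedBall (0 : X) C)) :=
    hK.isCompact_closure_image_closedBall C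
  have hmem : ∀ n, K (z (φ n)) ∈ closure (K '' Metric.closedBall (0 : X) C) := by
    intro n
    apply subset_closure
    refine ⟨z (φ n), ?_, rfl⟩
    rw [Metric.mem_closedBall, dist_zero_right]
    exact hC _
  obtain ⟨y, -, ψ, hψ, hlim⟩ := hcomp.tendsto_subseq hmem
  have hy : δ ≤ ‖y‖ := by
    refine ge_of_tendsto hlim.norm (Eventually.of_forall (fun n => ?_))
    exact hφδ (ψ n)
  have hy0 : y = 0 := by
    refine NormedSpace.eq_zero_of_forall_dual_eq_zero 𝕜 (fun f => ?_)
    have h1 : Tendsto (fun n => f (K (z (φ (ψ n))))) atTop (𝓝 (f y)) :=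
      (f.continuous.tendsto y).comp hlim
    have h2 : Tendsto (fun n => f (K (z (φ (ψ n))))) atTop (𝓝 0) :=
      (hz (f.comp K)).comp (hφ.comp hψ).tendsto_atTop
    exact tendsto_nhds_unique h1 h2
  rw [hy0, norm_zero] at hy
  linarith

end Pool.H30.PM
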