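import Pool.Agent.H30.PM.SJ

/-!
# [H30 PM CV] With the BCAP some `c I + K` does not attain its norm

`X` an infinite dimensional separable Banach space with the BCAP. Then there are a scalar `c` and a
compact `K` such that `c I + K` does not attain its norm.

PROOF.  Let `C` be the constant of the BCAP and `x j` a dense sequence. Applying the BCAP to the
finite sets `{x j | j ≤ n}` and `ε = 1/(n+1)` gives compact `K n`, `‖K n‖ ≤ C`, with
`‖K n (x j) - x j‖ ≤ 1/(n+1)` for `j ≤ n`; by density and boundedness `K n x → x` for all `x`. Put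
`S n = I - K n` (norm at most `1 + C`, note that `C ≥ 0`), `S n x → 0` for all `x`, and
`Cs n = convexHull ℝ {S k | k ≥ n}`. Every `R ∈ Cs n` satisfies `‖R‖ ≤ 1 + C`, `‖R x‖ ≤ sup_{k ≥ n}
‖S k x‖` (more precisely: if `‖S k x‖ ≤ ε` for all `k ≥ n` then `‖R x‖ ≤ ε`: the set of such `R` is
convex and contains the generators, `convexHull_min`), and `I - R` is compact (convex set
containing the generators: the operators `R` with `I - R` compact form a convex set). Every
`R ∈ Cs 0` has `‖R‖ ≥ 1`: otherwise `‖I - (I - R)‖ < 1` with `I - R` compact; then `I - R` is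
invertible (`Units.oneSub`, Neumann series, `X` complete), so
`I = (I-R)⁻¹ (I-R)` is compact and `X` is finite dimensional
(`isCompactOperator_id_iff_finiteDimensional`), contradiction. By `simons_operators` there are
`y n ∈ Cs n`, `l` such that `Z = ∑' k, l^k y k` does not attain. `y k = I - K' k`, `K' k` compact,
`‖K' k‖ ≤ 2 + C`; `Z = (∑' l^k) I - ∑' l^k K' k` and the sum of the compact operators is compact
(the compact operators form a closed set: `isClosed_setOf_isCompactOperator`). So `Z = c I + K`.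
-/

namespace Pool.H30.PM

open Filter Topology

/-- If `K` is compact and `‖I - K‖ < 1` then the space is finite dimensional. -/
private theorem fd_of_near {𝕜 : Type*} [RCLike 𝕜] {X : Type*} [NormedAddCommGroup X]
    [NormedSpace 𝕜 X] [CompleteSpace X] (K : X →L[𝕜] X) (hK : IsCompactOperator K)
    (h : ‖ContinuousLinearMap.id 𝕜 X - K‖ < 1) : FiniteDimensional 𝕜 X := by
  let R : X →L[𝕜] X := 1 - K
  have hR : ‖R‖ < 1 := h
  let u : (X →L[𝕜] X)ˣ := Units.oneSub R hR
  have hu : (u : X →L[𝕜] X) = K := by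
    show 1 - R = K
    simp only [R]
    abel
  have h1 : ((u⁻¹ : (X →L[𝕜] X)ˣ) : X →L[𝕜] X) * K = 1 := by
    rw [← hu]
    exact u.inv_mul
  have h2 : IsCompactOperator (ContinuousLinearMap.id 𝕜 X) := by
    have h3 : (ContinuousLinearMap.id 𝕜 X) =
        ((u⁻¹ : (X →L[𝕜] X)ˣ) : X →L[𝕜] X).comp K := h1.symm
    rw [h3]
    exact hK.clm_comp _
  exact isCompactOperator_id_iff_finiteDimensional.mp h2

/-- A sequence of compact operators converging strongly to the identity. -/
private theorem exists_seq {𝕜 : Type*} [RCLike 𝕜] {X : Type*} [NormedAddCommGroup X]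
    [NormedSpace 𝕜 X] [TopologicalSpace.SeparableSpace X] (hb : BCAP 𝕜 X) :
    ∃ (C : ℝ) (K : ℕ → (X →L[𝕜] X)), 0 ≤ C ∧ (∀ n, IsCompactOperator (K n)) ∧
      (∀ n, ‖K n‖ ≤ C) ∧ ∀ x, Tendsto (fun n => K n x) atTop (𝓝 x) := by
  classical
  obtain ⟨C, hC⟩ := hb
  have hC0 : 0 ≤ C := by
    obtain ⟨K, -, hK, -⟩ := hC ∅ isCompact_empty 1 one_pos
    exact (norm_nonneg K).trans hK
  let d : ℕ → X := TopologicalSpace.denseSeq X
  have hd : DenseRange d := TopologicalSpace.denseRange_denseSeq X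
  have hch : ∀ n : ℕ, ∃ K : X →L[𝕜] X, IsCompactOperator K ∧ ‖K‖ ≤ C ∧
      ∀ x ∈ d '' (Set.Iic n), ‖K x - x‖ ≤ 1 / ((n : ℝ) + 1) := fun n =>
    hC (d '' (Set.Iic n)) ((Set.finite_Iic n).image d).isCompact _ (by positivity)
  choose K hK1 hK2 hK3 using hch
  refine ⟨C, K, hC0, hK1, hK2, fun x => ?_⟩
  rw [Metric.tendsto_atTop]
  intro ε hε
  obtain ⟨j, hj⟩ := (Metric.denseRange_iff.mp hd) x (ε / (2 * (C + 2))) (by positivity)
  rw [dist_eq_norm] at hj
  obtain ⟨N, hN⟩ := exists_nat_gt (2 / ε)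
  refine ⟨max N j, fun n hn => ?_⟩
  have hnj : j ≤ n := (le_max_right _ _).trans hn
  have hnN : N ≤ n := (le_max_left _ _).trans hn
  have h1 : ‖K n (d j) - d j‖ ≤ 1 / ((n : ℝ) + 1) := hK3 n (d j) ⟨j, hnj, rfl⟩
  have h2 : 1 / ((n : ℝ) + 1) < ε / 2 := by
    rw [div_lt_div_iff₀ (by positivity) (by norm_num)]
    have h3 : (N : ℝ) ≤ n := by exact_mod_cast hnN
    rw [div_lt_iff₀ hε] at hN
    nlinarith
  rw [dist_eq_norm]
  have e1 : K n x - x = K n (x - d j) + (K n (d j) - d j) - (x - d j) := by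
    rw [map_sub]; abel
  rw [e1]
  have h4 : ‖K n (x - d j)‖ ≤ C * ‖x - d j‖ :=
    ((K n).le_opNorm _).trans (mul_le_mul_of_nonneg_right (hK2 n) (norm_nonneg _))
  have h5 := norm_sub_le (K n (x - d j) + (K n (d j) - d j)) (x - d j)
  have h6 := norm_add_le (K n (x - d j)) (K n (d j) - d j)
  have h7 : (C + 1) * ‖x - d j‖ ≤ ε / 2 := by
    calc (C + 1) * ‖x - d j‖ ≤ (C + 1) * (ε / (2 * (C + 2))) :=
          mul_le_mul_of_nonneg_left hj.le (by linarith)
      _ = (ε / 2) * ((C + 1) / (C + 2)) := by field_simp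
      _ ≤ (ε / 2) * 1 := by
          apply mul_le_mul_of_nonneg_left _ (by positivity)
          rw [div_le_one (by positivity)]
          linarith
      _ = ε / 2 := mul_one _
  linarith

private theorem exists_nonattaining_aux {𝕜 : Type*} [RCLike 𝕜] {X : Type*}
    [NormedAddCommGroup X] [NormedSpace 𝕜 X] [NormedSpace ℝ X] [IsScalarTower ℝ 𝕜 X]
    [CompleteSpace X] [TopologicalSpace.SeparableSpace X]
    (hinf : ¬ FiniteDimensional 𝕜 X) (hb : BCAP 𝕜 X) :
    ∃ (c : 𝕜) (K : X →L[𝕜] X), IsCompactOperator K ∧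
      ¬ Attains (c • ContinuousLinearMap.id 𝕜 X + K) := by
  classical
  obtain ⟨C, K, hC0, hK1, hK2, hK3⟩ := exists_seq hb
  let S : ℕ → (X →L[𝕜] X) := fun n => ContinuousLinearMap.id 𝕜 X - K n
  let Cs : ℕ → Set (X →L[𝕜] X) := fun n => convexHull ℝ (S '' Set.Ici n)
  have hne : ∀ n, (Cs n).Nonempty := fun n =>
    ⟨S n, subset_convexHull ℝ _ ⟨n, le_refl n, rfl⟩⟩
  have hconv : ∀ n, Convex ℝ (Cs n) := fun n => convex_convexHull ℝ _
  have hdec : ∀ n, Cs (n + 1) ⊆ Cs n := fun n =>
    convexHull_mono (Set.image_mono (Set.Ici_subset_Ici.mpr (Nat.le_succ n)))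
  have hcompact : ∀ n, ∀ R ∈ Cs n, IsCompactOperator (ContinuousLinearMap.id 𝕜 X - R) := by
    intro n R hR
    have hsub : Cs n ⊆ {R : X →L[𝕜] X | IsCompactOperator (ContinuousLinearMap.id 𝕜 X - R)} := by
      refine convexHull_min ?_ ?_
      · rintro _ ⟨k, -, rfl⟩
        have h1 : ContinuousLinearMap.id 𝕜 X - S k = K k := by
          simp only [S]
          abel
        show IsCompactOperator (ContinuousLinearMap.id 𝕜 X - S k)
        rw [h1]
        exact hK1 k
      · intro R1 hR1 R2 hR2 a b ha hb hab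
        show IsCompactOperator (ContinuousLinearMap.id 𝕜 X - (a • R1 + b • R2))
        have h1 : ContinuousLinearMap.id 𝕜 X - (a • R1 + b • R2) =
            a • (ContinuousLinearMap.id 𝕜 X - R1) + b • (ContinuousLinearMap.id 𝕜 X - R2) := by
          have h2 : ContinuousLinearMap.id 𝕜 X = a • ContinuousLinearMap.id 𝕜 X +
              b • ContinuousLinearMap.id 𝕜 X := by rw [← add_smul, hab, one_smul]
          nth_rewrite 1 [h2]
          rw [smul_sub, smul_sub]
          abel
        rw [h1]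
        have h3 : IsCompactOperator (a • (ContinuousLinearMap.id 𝕜 X - R1)) := by
          have h4 : a • (ContinuousLinearMap.id 𝕜 X - R1) =
              ((a : 𝕜)) • (ContinuousLinearMap.id 𝕜 X - R1) := by
            ext x
            exact RCLike.real_smul_eq_coe_smul (K := 𝕜) a _
          rw [h4]
          exact IsCompactOperator.smul (hR1 : IsCompactOperator _) _
        have h5 : IsCompactOperator (b • (ContinuousLinearMap.id 𝕜 X - R2)) := by
          have h4 : b • (ContinuousLinearMap.id 𝕜 X - R2) =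
              ((b : 𝕜)) • (ContinuousLinearMap.id 𝕜 X - R2) := by
            ext x
            exact RCLike.real_smul_eq_coe_smul (K := 𝕜) b _
          rw [h4]
          exact IsCompactOperator.smul (hR2 : IsCompactOperator _) _
        exact h3.add h5
    exact hsub hR
  have hB : ∀ n, ∀ R ∈ Cs n, ‖R‖ ≤ 1 + C := by
    intro n R hR
    have hsub : Cs n ⊆ Metric.closedBall (0 : X →L[𝕜] X) (1 + C) := by
      refine convexHull_min ?_ (convex_closedBall _ _)
      rintro _ ⟨k, -, rfl⟩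
      rw [Metric.mem_closedBall, dist_zero_right]
      refine (norm_sub_le _ _).trans (add_le_add ContinuousLinearMap.norm_id_le (hK2 k))
    have := hsub hR
    rwa [Metric.mem_closedBall, dist_zero_right] at this
  have h1 : ∀ R ∈ Cs 0, 1 ≤ ‖R‖ := by
    intro R hR
    by_contra hlt
    push Not at hlt
    refine hinf (fd_of_near (ContinuousLinearMap.id 𝕜 X - R) (hcompact 0 R hR) ?_)
    rwa [sub_sub_cancel]
  have h0 : ∀ R : ℕ → (X →L[𝕜] X), (∀ n, R n ∈ Cs n) →
      ∀ x, Tendsto (fun n => R n x) atTop (𝓝 0) := by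
    intro R hR x
    rw [Metric.tendsto_atTop]
    intro ε hε
    obtain ⟨N, hN⟩ := (Metric.tendsto_atTop.mp (hK3 x)) (ε / 2) (by positivity)
    refine ⟨N, fun n hn => ?_⟩
    rw [dist_zero_right]
    have hsub : Cs n ⊆ {T : X →L[𝕜] X | ‖T x‖ ≤ ε / 2} := by
      refine convexHull_min ?_ ?_
      · rintro _ ⟨k, hk, rfl⟩
        have h2 := hN k (hn.trans hk)
        rw [dist_eq_norm] at h2
        show ‖x - K k x‖ ≤ ε / 2
        rw [norm_sub_rev]
        exact h2.le
      · intro T1 hT1 T2 hT2 a b ha hb hab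
        show ‖(a • T1 + b • T2) x‖ ≤ ε / 2
        have e : (a • T1 + b • T2) x = a • T1 x + b • T2 x := rfl
        rw [e]
        have h2 : ‖T1 x‖ ≤ ε / 2 := hT1
        have h3 : ‖T2 x‖ ≤ ε / 2 := hT2
        calc ‖a • T1 x + b • T2 x‖ ≤ ‖a • T1 x‖ + ‖b • T2 x‖ := norm_add_le _ _
          _ = a * ‖T1 x‖ + b * ‖T2 x‖ := by
              rw [norm_smul, norm_smul, Real.norm_of_nonneg ha, Real.norm_of_nonneg hb]
          _ ≤ a * (ε / 2) + b * (ε / 2) :=
              add_le_add (mul_le_mul_of_nonneg_left h2 ha) (mul_le_mul_of_nonneg_left h3 hb)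
          _ = ε / 2 := by rw [← add_mul, hab, one_mul]
    have h2 : ‖R n x‖ ≤ ε / 2 := hsub (hR n)
    linarith
  obtain ⟨y, l, hy, hl0, hl1, hna⟩ := simons_operators Cs hne hconv hdec (1 + C) hB h1 h0
  -- write the sum as c I + K
  let K' : ℕ → (X →L[𝕜] X) := fun k => ContinuousLinearMap.id 𝕜 X - y k
  have hK'c : ∀ k, IsCompactOperator (K' k) := fun k => hcompact k _ (hy k)
  have hK'n : ∀ k, ‖K' k‖ ≤ 2 + C := by
    intro k
    have h2 := norm_sub_le (ContinuousLinearMap.id 𝕜 X) (y k)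
    have h3 : ‖ContinuousLinearMap.id 𝕜 X‖ ≤ 1 := ContinuousLinearMap.norm_id_le
    have h4 := hB k _ (hy k)
    show ‖ContinuousLinearMap.id 𝕜 X - y k‖ ≤ 2 + C
    linarith
  have hg : Summable (fun k : ℕ => l ^ k) := summable_geometric_of_lt_one hl0.le hl1
  have hg𝕜 : Summable (fun k : ℕ => ((l ^ k : ℝ) : 𝕜)) := by
    refine Summable.of_norm ?_
    refine hg.congr (fun k => ?_)
    rw [RCLike.norm_ofReal, abs_of_nonneg (by positivity)]
  have hsK : Summable (fun k : ℕ => ((l ^ k : ℝ) : 𝕜) • K' k) := by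
    refine Summable.of_norm_bounded (g := fun k => l ^ k * (2 + C)) (hg.mul_right _) (fun k => ?_)
    rw [norm_smul, RCLike.norm_ofReal, abs_of_nonneg (by positivity)]
    exact mul_le_mul_of_nonneg_left (hK'n k) (by positivity)
  let c : 𝕜 := ∑' k : ℕ, ((l ^ k : ℝ) : 𝕜)
  let K0 : X →L[𝕜] X := -∑' k : ℕ, ((l ^ k : ℝ) : 𝕜) • K' k
  have hK0 : IsCompactOperator K0 := by
    have hcl := isClosed_setOf_isCompactOperator (σ₁₂ := RingHom.id 𝕜) (M₁ := X) (M₂ := X)
    have h2 : (∑' k : ℕ, ((l ^ k : ℝ) : 𝕜) • K' k) ∈ {f : X →L[𝕜] X | IsCompactOperator f} := by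
      refine hcl.mem_of_tendsto hsK.hasSum.tendsto_sum_nat (Eventually.of_forall (fun n => ?_))
      show IsCompactOperator (∑ k ∈ Finset.range n, ((l ^ k : ℝ) : 𝕜) • K' k : X →L[𝕜] X)
      induction n with
      | zero =>
        rw [Finset.sum_range_zero]
        exact isCompactOperator_zero
      | succ n ih =>
        rw [Finset.sum_range_succ]
        exact ih.add (IsCompactOperator.smul (hK'c n) _)
    exact IsCompactOperator.neg h2
  have heq : c • ContinuousLinearMap.id 𝕜 X + K0 = ∑' k, ((l ^ k : ℝ) : 𝕜) • y k := by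
    have h2 : HasSum (fun k : ℕ => ((l ^ k : ℝ) : 𝕜) • ContinuousLinearMap.id 𝕜 X)
        (c • ContinuousLinearMap.id 𝕜 X) := hg𝕜.hasSum.smul_const _
    have h3 := h2.sub hsK.hasSum
    have h4 : (fun k : ℕ => ((l ^ k : ℝ) : 𝕜) • ContinuousLinearMap.id 𝕜 X -
        ((l ^ k : ℝ) : 𝕜) • K' k) = fun k => ((l ^ k : ℝ) : 𝕜) • y k := by
      ext1 k
      rw [← smul_sub]
      simp only [K']
      rw [sub_sub_cancel]
    rw [h4] at h3
    rw [h3.tsum_eq]
    simp only [K0]
    abel
  exact ⟨c, K0, hK0, by rw [heq]; exact hna⟩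

theorem exists_nonattaining {𝕜 : Type*} [RCLike 𝕜] {X : Type*} [NormedAddCommGroup X]
    [NormedSpace 𝕜 X] [CompleteSpace X] [TopologicalSpace.SeparableSpace X]
    (hinf : ¬ FiniteDimensional 𝕜 X) (hb : BCAP 𝕜 X) :
    ∃ (c : 𝕜) (K : X →L[𝕜] X), IsCompactOperator K ∧
      ¬ Attains (c • ContinuousLinearMap.id 𝕜 X + K) := by
  letI : NormedSpace ℝ X := NormedSpace.restrictScalars ℝ 𝕜 X
  haveI : IsScalarTower ℝ 𝕜 X := RestrictScalars.isScalarTower ℝ 𝕜 X
  exact exists_nonattaining_aux hinf hb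

end Pool.H30.PM
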