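import Pool.Agent.H30.PM.Basic

/-!
# [H30 PM DS] A Banach space with separable dual is separable; the reflexive case

PROOF of `sep_of_dual`.  If the dual of `Y` is separable, so is its unit sphere (subspace of a
separable metric space). Let `f n` be a sequence dense in the set of functionals of norm one (if the
dual is zero, `Y` is zero by Hahn-Banach and the claim is trivial). For each `n` choose `y n`,
`‖y n‖ ≤ 1`, `‖f n (y n)‖ ≥ 1/2`. Let `M` be the closed span of the `y n`; it is separable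
(closure of the span of a countable set: `IsSeparable.span`, `IsSeparable.closure`). `M = Y`:
otherwise there is a functional `f`, `‖f‖ = 1`, vanishing on `M` (`Submodule`, Hahn-Banach:
`exists_dual_map_eq_bot_of_notMem` / `geometric`), and `n` with `‖f n - f‖ < 1/4`, hence
`1/2 ≤ ‖f n (y n)‖ = ‖(f n - f)(y n)‖ ≤ 1/4`, contradiction.
PROOF of `dual_separable`.  `X` reflexive and separable: the bidual is the image of `X` under the
continuous surjection `NormedSpace.inclusionInDoubleDual`, hence separable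
(`Function.Surjective.denseRange`, `DenseRange.separableSpace`), and `sep_of_dual` applied to
`Y = StrongDual 𝕜 X` shows that the dual of `X` is separable.
-/

namespace Pool.H30.PM

open Filter Topology

private theorem ds_sep {𝕜 : Type*} [RCLike 𝕜] {E : Type*} [NormedAddCommGroup E]
    [NormedSpace 𝕜 E] (p : Submodule 𝕜 E)
    (hp : IsClosed (p : Set E)) (x : E) (hx : x ∉ p) :
    ∃ φ : E →L[𝕜] 𝕜, φ ≠ 0 ∧ ∀ y ∈ p, φ y = 0 := by
  let _ : Module ℝ E := RestrictScalars.module ℝ 𝕜 E
  let _ : IsScalarTower ℝ 𝕜 E := RestrictScalars.isScalarTower _ _ _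
  let _ : NormedSpace ℝ E := NormedSpace.restrictScalars _ 𝕜 _
  have hconv : Convex ℝ (p : Set E) := (p.restrictScalars ℝ).convex
  obtain ⟨f, u, hfx, hf⟩ := RCLike.geometric_hahn_banach_point_closed (𝕜 := 𝕜) hconv hp hx
  have hu0 : u < 0 := by
    have := hf 0 p.zero_mem
    simpa using this
  refine ⟨f, ?_, ?_⟩
  · rintro rfl
    simp at hfx
    linarith
  · intro y hy
    by_contra hne
    have h1 := hf ((((u - 1 : ℝ) : 𝕜) * (f y)⁻¹) • y) (p.smul_mem _ hy)
    rw [map_smul, smul_eq_mul, mul_assoc, inv_mul_cancel₀ hne, mul_one, RCLike.ofReal_re] at h1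
    linarith

theorem sep_of_dual {𝕜 : Type*} [RCLike 𝕜] {Y : Type*} [NormedAddCommGroup Y]
    [NormedSpace 𝕜 Y] (h : TopologicalSpace.SeparableSpace (Y →L[𝕜] 𝕜)) :
    TopologicalSpace.SeparableSpace Y := by
  classical
  haveI := h
  -- for each functional choose a nearly norming vector
  have hch : ∀ f : Y →L[𝕜] 𝕜, ∃ y : Y, ‖y‖ ≤ 1 ∧ ‖f‖ / 2 ≤ ‖f y‖ := by
    intro f
    by_cases hf : f = 0
    · exact ⟨0, by simp, by rw [hf]; simp⟩
    · have hfn : 0 < ‖f‖ := norm_pos_iff.mpr hf
      by_contra hcon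
      push Not at hcon
      have h1 : ‖f‖ ≤ ‖f‖ / 2 := by
        refine ContinuousLinearMap.opNorm_le_bound _ (by positivity) (fun y => ?_)
        by_cases hy : y = 0
        · rw [hy]; simp
        · have hyn : 0 < ‖y‖ := norm_pos_iff.mpr hy
          have h2 := hcon (((‖y‖ : 𝕜)⁻¹) • y) (by
            rw [norm_smul, norm_inv, RCLike.norm_ofReal, abs_norm, inv_mul_cancel₀ hyn.ne'])
          rw [map_smul, norm_smul, norm_inv, RCLike.norm_ofReal, abs_norm,
            inv_mul_lt_iff₀ hyn] at h2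
          linarith
      linarith
  choose g hg1 hg2 using hch
  let D : ℕ → (Y →L[𝕜] 𝕜) := TopologicalSpace.denseSeq (Y →L[𝕜] 𝕜)
  let M : Submodule 𝕜 Y := (Submodule.span 𝕜 (Set.range (fun n => g (D n)))).topologicalClosure
  have hMtop : ∀ y : Y, y ∈ M := by
    intro y
    by_contra hy
    obtain ⟨φ, hφ0, hφ⟩ := ds_sep M (Submodule.isClosed_topologicalClosure _) y hy
    have hφn : 0 < ‖φ‖ := norm_pos_iff.mpr hφ0
    obtain ⟨n, hn⟩ := (Metric.denseRange_iff.mp (TopologicalSpace.denseRange_denseSeq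
      (Y →L[𝕜] 𝕜))) φ (‖φ‖ / 4) (by positivity)
    rw [dist_eq_norm] at hn
    have h1 : φ (g (D n)) = 0 :=
      hφ _ (Submodule.le_topologicalClosure _ (Submodule.subset_span ⟨n, rfl⟩))
    have h2 : ‖D n (g (D n))‖ ≤ ‖φ - D n‖ := by
      calc ‖D n (g (D n))‖ = ‖(φ - D n) (g (D n))‖ := by
            rw [ContinuousLinearMap.sub_apply, h1, zero_sub, norm_neg]
        _ ≤ ‖φ - D n‖ * ‖g (D n)‖ := ContinuousLinearMap.le_opNorm _ _
        _ ≤ ‖φ - D n‖ * 1 := mul_le_mul_of_nonneg_left (hg1 _) (norm_nonneg (φ - D n))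
        _ = ‖φ - D n‖ := mul_one _
    have h3 := hg2 (D n)
    have h4 : ‖φ‖ ≤ ‖φ - D n‖ + ‖D n‖ := by
      have := norm_add_le (φ - D n) (D n)
      rwa [sub_add_cancel] at this
    have h5 : ‖φ - D n‖ < ‖φ‖ / 4 := hn
    linarith
  have hsepM : TopologicalSpace.IsSeparable (M : Set Y) := by
    have h1 : TopologicalSpace.IsSeparable (Set.range (fun n => g (D n))) :=
      (Set.countable_range _).isSeparable
    have h2 : TopologicalSpace.IsSeparable
        ((Submodule.span 𝕜 (Set.range (fun n => g (D n))) : Submodule 𝕜 Y) : Set Y) := h1.span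
    exact h2.closure
  have huniv : (M : Set Y) = Set.univ := Set.eq_univ_of_forall hMtop
  rw [huniv] at hsepM
  exact TopologicalSpace.isSeparable_univ_iff.mp hsepM

theorem dual_separable {𝕜 : Type*} [RCLike 𝕜] {X : Type*} [NormedAddCommGroup X]
    [NormedSpace 𝕜 X] [TopologicalSpace.SeparableSpace X] (hr : Reflexive 𝕜 X) :
    TopologicalSpace.SeparableSpace (X →L[𝕜] 𝕜) := by
  have h1 : TopologicalSpace.SeparableSpace ((X →L[𝕜] 𝕜) →L[𝕜] 𝕜) :=
    hr.denseRange.separableSpace (NormedSpace.inclusionInDoubleDual 𝕜 X).continuous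
  exact sep_of_dual h1

end Pool.H30.PM
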