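import Pool.Agent.H30.PM.Basic

/-!
# [H30 PM MO] Monotonicity in spaces with property (M)

`X` has property (M), `z n` bounded and weakly null.
(1) `mono`: `‖u‖ ≤ ‖v‖` implies `limsup ‖u + z n‖ ≤ limsup ‖v + z n‖`.
(2) `mono_scale`: `‖u‖ ≤ ‖v‖`, `c` a scalar with `‖c‖ ≤ 1`, and `limsup ‖v + z n‖ ≤ b`. Then
`limsup ‖u + c z n‖ ≤ ‖c‖ b + (1 - ‖c‖) ‖v‖`.

PROOF.  All sequences of norms here are bounded (needed for `limsup` computations in Lean).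
(1) If `v = 0` then `u = 0`. Let `v ≠ 0`. If `u ≠ 0` put `u' = (‖v‖/‖u‖) u`, `s = ‖u‖/‖v‖ ∈ [0,1]`, so
`u = s u'`, `‖u'‖ = ‖v‖`; if `u = 0` put `u' = v`, `s = 0`. In all cases
`u + z n = ((1+s)/2) (u' + z n) + ((1-s)/2) (-u' + z n)`, so
`limsup ‖u + z n‖ ≤ ((1+s)/2) limsup ‖u' + z n‖ + ((1-s)/2) limsup ‖-u' + z n‖`
`= limsup ‖v + z n‖`, by property (M) (`‖u'‖ = ‖-u'‖ = ‖v‖`). (`limsup` of a sum is at most the sum of
the `limsup`s; a convenient way: for every `ε > 0` eventually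
`‖±u' + z n‖ ≤ limsup ‖v + z n‖ + ε`, so eventually `‖u + z n‖ ≤ limsup ‖v + z n‖ + ε`, and
`limsup_le_of_le`.)
(2) Write `c = ‖c‖ w` with `‖w‖ = 1` (`w = c/‖c‖`, or `w = 1` if `c = 0`). The sequence `w z n` is
weakly null, and `‖v + w z n‖ = ‖w⁻¹ v + z n‖` with `‖w⁻¹ v‖ = ‖v‖`, so by (M)
`limsup ‖v + w z n‖ = limsup ‖v + z n‖ ≤ b`. By (1), applied to the weakly null sequence
`c z n`, `limsup ‖u + c z n‖ ≤ limsup ‖v + c z n‖`, and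
`v + c z n = ‖c‖ (v + w z n) + (1 - ‖c‖) v` gives
`‖v + c z n‖ ≤ ‖c‖ ‖v + w z n‖ + (1 - ‖c‖) ‖v‖`.
-/

namespace Pool.H30.PM

open Filter Topology

section aux

variable {𝕜 : Type*} [RCLike 𝕜] {X : Type*} [NormedAddCommGroup X] [NormedSpace 𝕜 X]

private theorem bdd_above (z : ℕ → X) (C : ℝ) (hC : ∀ n, ‖z n‖ ≤ C) (u : X) :
    IsBoundedUnder (· ≤ ·) atTop (fun n => ‖u + z n‖) :=
  ⟨‖u‖ + C, Filter.eventually_map.mpr (Eventually.of_forall (fun n =>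
    (norm_add_le u (z n)).trans (add_le_add_right (hC n) ‖u‖)))⟩

private theorem cobdd (z : ℕ → X) (u : X) :
    IsCoboundedUnder (· ≤ ·) atTop (fun n => ‖u + z n‖) := by
  refine IsBoundedUnder.isCoboundedUnder_le ⟨0, ?_⟩
  exact Filter.eventually_map.mpr (Eventually.of_forall (fun n => norm_nonneg _))

private theorem ev_le (z : ℕ → X) (C : ℝ) (hC : ∀ n, ‖z n‖ ≤ C) (u : X) (b ε : ℝ)
    (hb : limsup (fun n => ‖u + z n‖) atTop ≤ b) (hε : 0 < ε) :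
    ∀ᶠ n in atTop, ‖u + z n‖ < b + ε :=
  eventually_lt_of_limsup_lt (lt_of_le_of_lt hb (by linarith)) (bdd_above z C hC u)

private theorem limsup_le_of_ev (z : ℕ → X) (u : X) (b : ℝ)
    (h : ∀ ε > 0, ∀ᶠ n in atTop, ‖u + z n‖ < b + ε) :
    limsup (fun n => ‖u + z n‖) atTop ≤ b := by
  refine le_of_forall_pos_le_add (fun ε hε => ?_)
  exact limsup_le_of_le (cobdd z u) ((h ε hε).mono (fun n hn => hn.le))

end aux

theorem mono {𝕜 : Type*} [RCLike 𝕜] {X : Type*} [NormedAddCommGroup X]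
    [NormedSpace 𝕜 X] (hM : PropertyM 𝕜 X) (z : ℕ → X) (C : ℝ) (hC : ∀ n, ‖z n‖ ≤ C)
    (hz : WN 𝕜 z) (u v : X) (huv : ‖u‖ ≤ ‖v‖) :
    limsup (fun n => ‖u + z n‖) atTop ≤ limsup (fun n => ‖v + z n‖) atTop := by
  -- write u = s u' with ‖u'‖ = ‖v‖
  obtain ⟨u', s, hs0, hs1, hu', hu⟩ : ∃ (u' : X) (s : ℝ), 0 ≤ s ∧ s ≤ 1 ∧ ‖u'‖ = ‖v‖ ∧
      u = (s : 𝕜) • u' := by
    by_cases hu0 : u = 0
    · exact ⟨v, 0, le_refl _, zero_le_one, rfl, by rw [hu0]; simp⟩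
    · have hun : 0 < ‖u‖ := norm_pos_iff.mpr hu0
      have hvn : 0 < ‖v‖ := lt_of_lt_of_le hun huv
      refine ⟨((‖v‖ / ‖u‖ : ℝ) : 𝕜) • u, ‖u‖ / ‖v‖, by positivity,
        (div_le_one hvn).mpr huv, ?_, ?_⟩
      · rw [norm_smul, RCLike.norm_ofReal, abs_of_pos (by positivity)]
        field_simp
      · rw [smul_smul, ← RCLike.ofReal_mul]
        have : ‖u‖ / ‖v‖ * (‖v‖ / ‖u‖) = 1 := by field_simp
        rw [this]
        simp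
  set b := limsup (fun n => ‖v + z n‖) atTop with hb
  have h1 : limsup (fun n => ‖u' + z n‖) atTop ≤ b := (hM u' v z hu' hz).le
  have h2 : limsup (fun n => ‖-u' + z n‖) atTop ≤ b :=
    (hM (-u') v z (by rw [norm_neg, hu']) hz).le
  refine limsup_le_of_ev z u b (fun ε hε => ?_)
  filter_upwards [ev_le z C hC u' b ε h1 hε, ev_le z C hC (-u') b ε h2 hε] with n hn1 hn2
  have e1 : u + z n = (((1 + s) / 2 : ℝ) : 𝕜) • (u' + z n) +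
      (((1 - s) / 2 : ℝ) : 𝕜) • (-u' + z n) := by
    rw [hu]
    push_cast
    module
  rw [e1]
  have h3 : ‖(((1 + s) / 2 : ℝ) : 𝕜) • (u' + z n)‖ = (1 + s) / 2 * ‖u' + z n‖ := by
    rw [norm_smul, RCLike.norm_ofReal, abs_of_nonneg (by linarith)]
  have h4 : ‖(((1 - s) / 2 : ℝ) : 𝕜) • (-u' + z n)‖ = (1 - s) / 2 * ‖-u' + z n‖ := by
    rw [norm_smul, RCLike.norm_ofReal, abs_of_nonneg (by linarith)]
  have h5 := norm_add_le ((((1 + s) / 2 : ℝ) : 𝕜) • (u' + z n))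
    ((((1 - s) / 2 : ℝ) : 𝕜) • (-u' + z n))
  rw [h3, h4] at h5
  have h6 : (1 + s) / 2 * ‖u' + z n‖ < (1 + s) / 2 * (b + ε) :=
    mul_lt_mul_of_pos_left hn1 (by linarith)
  have h7 : (1 - s) / 2 * ‖-u' + z n‖ ≤ (1 - s) / 2 * (b + ε) :=
    mul_le_mul_of_nonneg_left hn2.le (by linarith)
  linarith

theorem mono_scale {𝕜 : Type*} [RCLike 𝕜] {X : Type*} [NormedAddCommGroup X]
    [NormedSpace 𝕜 X] (hM : PropertyM 𝕜 X) (z : ℕ → X) (C : ℝ) (hC : ∀ n, ‖z n‖ ≤ C)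
    (hz : WN 𝕜 z) (u v : X) (huv : ‖u‖ ≤ ‖v‖) (c : 𝕜) (hc : ‖c‖ ≤ 1) (b : ℝ)
    (hb : limsup (fun n => ‖v + z n‖) atTop ≤ b) :
    limsup (fun n => ‖u + c • z n‖) atTop ≤ ‖c‖ * b + (1 - ‖c‖) * ‖v‖ := by
  obtain ⟨w, hw1, hcw⟩ : ∃ w : 𝕜, ‖w‖ = 1 ∧ c = (‖c‖ : 𝕜) * w := by
    by_cases hc0 : c = 0
    · exact ⟨1, norm_one, by rw [hc0]; simp⟩
    · have hcn : (‖c‖ : 𝕜) ≠ 0 := by
        rw [Ne, RCLike.ofReal_eq_zero]
        exact norm_ne_zero_iff.mpr hc0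
      refine ⟨c / (‖c‖ : 𝕜), ?_, by field_simp⟩
      rw [norm_div, RCLike.norm_ofReal, abs_norm, div_self (norm_ne_zero_iff.mpr hc0)]
  have hw0 : w ≠ 0 := by
    intro h
    rw [h, norm_zero] at hw1
    exact zero_ne_one hw1
  -- limsup of ‖v + w z n‖
  have hvw : ∀ n, ‖v + w • z n‖ = ‖w⁻¹ • v + z n‖ := by
    intro n
    have : v + w • z n = w • (w⁻¹ • v + z n) := by
      rw [smul_add, smul_smul, mul_inv_cancel₀ hw0, one_smul]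
    rw [this, norm_smul, hw1, one_mul]
  have h1 : limsup (fun n => ‖w⁻¹ • v + z n‖) atTop ≤ b := by
    refine (hM (w⁻¹ • v) v z ?_ hz).le.trans hb
    rw [norm_smul, norm_inv, hw1, inv_one, one_mul]
  have hzc : WN 𝕜 (fun n => c • z n) := by
    intro φ
    have := (hz φ).const_mul c
    rw [mul_zero] at this
    refine this.congr (fun n => ?_)
    rw [map_smul, smul_eq_mul]
  have hCc : ∀ n, ‖c • z n‖ ≤ C := by
    intro n
    rw [norm_smul]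
    calc ‖c‖ * ‖z n‖ ≤ 1 * ‖z n‖ := mul_le_mul_of_nonneg_right hc (norm_nonneg _)
      _ = ‖z n‖ := one_mul _
      _ ≤ C := hC n
  refine (mono hM (fun n => c • z n) C hCc hzc u v huv).trans ?_
  refine limsup_le_of_ev (fun n => c • z n) v _ (fun ε hε => ?_)
  filter_upwards [ev_le z C hC (w⁻¹ • v) b ε h1 hε] with n hn
  have e1 : v + c • z n = (‖c‖ : 𝕜) • (v + w • z n) + ((1 - ‖c‖ : ℝ) : 𝕜) • v := by
    nth_rewrite 1 [hcw]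
    push_cast
    module
  rw [e1]
  have h3 : ‖(‖c‖ : 𝕜) • (v + w • z n)‖ = ‖c‖ * ‖w⁻¹ • v + z n‖ := by
    rw [norm_smul, RCLike.norm_ofReal, abs_norm, hvw]
  have h4 : ‖((1 - ‖c‖ : ℝ) : 𝕜) • v‖ = (1 - ‖c‖) * ‖v‖ := by
    rw [norm_smul, RCLike.norm_ofReal, abs_of_nonneg (by linarith)]
  have h5 := norm_add_le ((‖c‖ : 𝕜) • (v + w • z n)) (((1 - ‖c‖ : ℝ) : 𝕜) • v)
  rw [h3, h4] at h5
  have h6 : ‖c‖ * ‖w⁻¹ • v + z n‖ ≤ ‖c‖ * (b + ε) :=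
    mul_le_mul_of_nonneg_left hn.le (norm_nonneg _)
  have h7 : ‖c‖ * ε ≤ ε := by
    calc ‖c‖ * ε ≤ 1 * ε := mul_le_mul_of_nonneg_right hc hε.le
      _ = ε := one_mul _
  -- strict inequality
  rcases eq_or_lt_of_le hc with hc1 | hc1
  · have h8 : ‖c‖ * ‖w⁻¹ • v + z n‖ < ‖c‖ * (b + ε) := by
      rw [hc1]
      linarith
    nlinarith
  · have h9 : ‖c‖ * ε < ε := by
      nlinarith
    nlinarith

end Pool.H30.PM
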