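import Pool.Agent.H30.PM.WE
import Pool.Agent.H30.PM.CN
import Pool.Agent.H30.PM.MO

/-!
# [H30 PM EA] Property (M): `c I + K` attains its norm if the norm is larger than `‖c‖`

`X` separable, reflexive, property (M); `T = c I + K`, `K` compact, `‖c‖ < ‖T‖`. Then `T` attains.

PROOF.  Let `t = ‖T‖ > 0`. Choose `x n`, `‖x n‖ = 1`, `‖T (x n)‖ → t`. By `weak_extract` (`C = 1`)
after passing to a subsequence `x n = y + z n`, `‖y‖ ≤ 1`, `z n` weakly null and bounded by `2`. Now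
`T (x n) = T y + c z n + K (z n)` and `K (z n) → 0` (`compact_null`), so `‖T y + c z n‖ → t`.
STEP 1: `‖y‖ = 1`. `‖T y‖ ≤ t ‖y‖ = ‖t y‖`. Put `u = t⁻¹ T y`, so `‖u‖ ≤ ‖y‖`, `c' = c/t`,
`‖c'‖ < 1`. `t⁻¹ ‖T y + c z n‖ = ‖u + c' z n‖ → 1`. `limsup ‖y + z n‖ = 1` (constant sequence). By
`mono_scale` (`v = y`, `b = 1`): `1 ≤ ‖c'‖ + (1 - ‖c'‖) ‖y‖`, so `‖y‖ ≥ 1`.
STEP 2: `‖T y‖ = t`. Suppose `‖T y‖ < t`, i.e. `‖u‖ < 1`. Let `r = max ‖u‖ ‖c'‖ < 1`. If `r = 0` then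
`u = 0`, `c' = 0` and `‖u + c' z n‖ = 0` does not tend to `1`. If `r > 0`: `‖r⁻¹ u‖ ≤ 1 = ‖y‖`,
`‖r⁻¹ c'‖ ≤ 1`, so by `mono_scale` `limsup ‖r⁻¹ u + r⁻¹ c' z n‖ ≤ 1` (`‖y‖ = 1`, `b = 1`), i.e.
`1 = lim ‖u + c' z n‖ ≤ r < 1`, contradiction. So `T` attains its norm at `y`.
-/

namespace Pool.H30.PM

open Filter Topology

private theorem exists_max_seq {𝕜 : Type*} [RCLike 𝕜] {X : Type*} [NormedAddCommGroup X]
    [NormedSpace 𝕜 X] (T : X →L[𝕜] X) (ht : 0 < ‖T‖) :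
    ∃ x : ℕ → X, (∀ n, ‖x n‖ = 1) ∧ Tendsto (fun n => ‖T (x n)‖) atTop (𝓝 ‖T‖) := by
  have hch : ∀ n : ℕ, ∃ x : X, ‖x‖ = 1 ∧ ‖T‖ - ‖T‖ / ((n : ℝ) + 2) < ‖T x‖ := by
    intro n
    by_contra hcon
    push Not at hcon
    have hpos : 0 < ‖T‖ / ((n : ℝ) + 2) := by positivity
    have hnn : 0 ≤ ‖T‖ - ‖T‖ / ((n : ℝ) + 2) := by
      have h1 : ‖T‖ / ((n : ℝ) + 2) ≤ ‖T‖ := by
        rw [div_le_iff₀ (by positivity)]
        nlinarith [(Nat.cast_nonneg n : (0 : ℝ) ≤ n)]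
      linarith
    have h2 : ‖T‖ ≤ ‖T‖ - ‖T‖ / ((n : ℝ) + 2) := by
      refine ContinuousLinearMap.opNorm_le_bound _ hnn (fun y => ?_)
      by_cases hy : y = 0
      · rw [hy]; simp
      · have hyn : 0 < ‖y‖ := norm_pos_iff.mpr hy
        have h3 := hcon (((‖y‖ : 𝕜)⁻¹) • y) (by
          rw [norm_smul, norm_inv, RCLike.norm_ofReal, abs_norm, inv_mul_cancel₀ hyn.ne'])
        rw [map_smul, norm_smul, norm_inv, RCLike.norm_ofReal, abs_norm,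
          inv_mul_le_iff₀ hyn] at h3
        linarith
    linarith
  choose x hx1 hx2 using hch
  refine ⟨x, hx1, ?_⟩
  have h1 : Tendsto (fun n : ℕ => ‖T‖ - ‖T‖ / ((n : ℝ) + 2)) atTop (𝓝 (‖T‖ - 0)) := by
    refine tendsto_const_nhds.sub ?_
    refine Tendsto.div_atTop tendsto_const_nhds ?_
    exact tendsto_atTop_add_const_right _ _ tendsto_natCast_atTop_atTop
  rw [sub_zero] at h1
  refine tendsto_of_tendsto_of_tendsto_of_le_of_le h1 tendsto_const_nhds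
    (fun n => (hx2 n).le) (fun n => ?_)
  have := T.le_opNorm (x n)
  rw [hx1, mul_one] at this
  exact this

theorem attains_essential {𝕜 : Type*} [RCLike 𝕜] {X : Type*} [NormedAddCommGroup X]
    [NormedSpace 𝕜 X] [TopologicalSpace.SeparableSpace X] (hr : Reflexive 𝕜 X)
    (hM : PropertyM 𝕜 X) (c : 𝕜) (K : X →L[𝕜] X) (hK : IsCompactOperator K)
    (h : ‖c‖ < ‖c • ContinuousLinearMap.id 𝕜 X + K‖) :
    Attains (c • ContinuousLinearMap.id 𝕜 X + K) := by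
  obtain ⟨T, hT⟩ : ∃ T : X →L[𝕜] X, T = c • ContinuousLinearMap.id 𝕜 X + K := ⟨_, rfl⟩
  rw [← hT] at h ⊢
  set t := ‖T‖ with ht
  have ht0 : 0 < t := lt_of_le_of_lt (norm_nonneg c) h
  obtain ⟨x0, hx01, hx02⟩ := exists_max_seq T ht0
  obtain ⟨φ, y, hφ, hy, hz⟩ := weak_extract (𝕜 := 𝕜) hr x0 1 (fun n => (hx01 n).le)
  let x : ℕ → X := fun n => x0 (φ n)
  let z : ℕ → X := fun n => x0 (φ n) - y
  have hzC : ∀ n, ‖z n‖ ≤ 2 := by
    intro n
    have h1 := norm_sub_le (x0 (φ n)) y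
    have h2 := hx01 (φ n)
    show ‖x0 (φ n) - y‖ ≤ 2
    linarith
  have hz' : WN 𝕜 z := hz
  have hTx : ∀ v, T v = c • v + K v := by
    intro v
    rw [hT]
    rfl
  have hKz := compact_null K hK z 2 hzC hz'
  have hKz' : Tendsto (fun n => K (z n)) atTop (𝓝 0) := tendsto_zero_iff_norm_tendsto_zero.mpr hKz
  -- ‖T y + c z n‖ → t
  have hlim1 : Tendsto (fun n => ‖T y + c • z n‖) atTop (𝓝 t) := by
    have h1 : Tendsto (fun n => ‖T (x n)‖) atTop (𝓝 t) := hx02.comp hφ.tendsto_atTop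
    have h2 : Tendsto (fun n => ‖T (x n)‖ - ‖K (z n)‖) atTop (𝓝 (t - 0)) := h1.sub hKz
    have h3 : Tendsto (fun n => ‖T (x n)‖ + ‖K (z n)‖) atTop (𝓝 (t + 0)) := h1.add hKz
    rw [sub_zero] at h2
    rw [add_zero] at h3
    have he : ∀ n, T (x n) = (T y + c • z n) + K (z n) := by
      intro n
      have h4 : x n = y + z n := by simp only [x, z]; abel
      rw [h4, map_add, hTx (z n)]
      abel
    refine tendsto_of_tendsto_of_tendsto_of_le_of_le h2 h3 (fun n => ?_) (fun n => ?_)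
    · show ‖T (x n)‖ - ‖K (z n)‖ ≤ ‖T y + c • z n‖
      rw [he n]
      have := norm_add_le (T y + c • z n) (K (z n))
      linarith
    · show ‖T y + c • z n‖ ≤ ‖T (x n)‖ + ‖K (z n)‖
      have h5 : T y + c • z n = T (x n) - K (z n) := by
        rw [he n]; abel
      rw [h5]
      exact norm_sub_le _ _
  -- normalised version
  let u : X := ((t : 𝕜)⁻¹) • T y
  let c' : 𝕜 := (t : 𝕜)⁻¹ * c
  have htk : ‖(t : 𝕜)⁻¹‖ = t⁻¹ := by
    rw [norm_inv, RCLike.norm_ofReal, abs_of_pos ht0]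
  have hu : ‖u‖ ≤ ‖y‖ := by
    simp only [u]
    rw [norm_smul, htk, inv_mul_le_iff₀ ht0]
    exact T.le_opNorm y
  have hc' : ‖c'‖ < 1 := by
    simp only [c']
    rw [norm_mul, htk, inv_mul_lt_iff₀ ht0, mul_one]
    exact h
  have hlim2 : Tendsto (fun n => ‖u + c' • z n‖) atTop (𝓝 1) := by
    have h1 := hlim1.const_mul t⁻¹
    rw [inv_mul_cancel₀ ht0.ne'] at h1
    refine h1.congr (fun n => ?_)
    have h2 : u + c' • z n = ((t : 𝕜)⁻¹) • (T y + c • z n) := by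
      simp only [u, c']
      rw [smul_add, smul_smul]
    rw [h2, norm_smul, htk]
  have hxn : limsup (fun n => ‖y + z n‖) atTop ≤ 1 := by
    have h1 : (fun n => ‖y + z n‖) = fun _ => (1 : ℝ) := by
      ext n
      have : y + z n = x0 (φ n) := by simp only [z]; abel
      rw [this, hx01]
    rw [h1, limsup_const]
  -- step 1
  have hy1 : ‖y‖ = 1 := by
    have h1 := mono_scale hM z 2 hzC hz' u y hu c' hc'.le 1 hxn
    rw [hlim2.limsup_eq] at h1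
    have h2 : 0 < 1 - ‖c'‖ := by linarith
    have h3 : 1 - ‖c'‖ ≤ (1 - ‖c'‖) * ‖y‖ := by linarith
    have h4 : 1 ≤ ‖y‖ := by
      by_contra hlt
      push Not at hlt
      nlinarith
    linarith
  -- step 2
  refine ⟨y, hy1, ?_⟩
  by_contra hne
  have hle : ‖T y‖ ≤ t := by
    have := T.le_opNorm y
    rw [hy1, mul_one] at this
    exact this
  have hlt : ‖T y‖ < t := lt_of_le_of_ne hle hne
  have hu1 : ‖u‖ < 1 := by
    simp only [u]
    rw [norm_smul, htk, inv_mul_lt_iff₀ ht0, mul_one]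
    exact hlt
  set r := max ‖u‖ ‖c'‖ with hrdef
  have hr1 : r < 1 := max_lt hu1 hc'
  have hr0 : 0 ≤ r := (norm_nonneg u).trans (le_max_left _ _)
  rcases hr0.eq_or_lt with h0 | h0
  · have h1 : u = 0 := by
      have : ‖u‖ ≤ 0 := h0 ▸ le_max_left _ _
      exact norm_le_zero_iff.mp this
    have h2 : c' = 0 := by
      have : ‖c'‖ ≤ 0 := h0 ▸ le_max_right _ _
      exact norm_le_zero_iff.mp this
    have h3 : Tendsto (fun n => ‖u + c' • z n‖) atTop (𝓝 0) := by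
      rw [h1, h2]
      simp
    have := tendsto_nhds_unique hlim2 h3
    norm_num at this
  · have hrk : ‖(r : 𝕜)⁻¹‖ = r⁻¹ := by
      rw [norm_inv, RCLike.norm_ofReal, abs_of_pos h0]
    have hrc : (r : 𝕜) ≠ 0 := by
      rw [Ne, RCLike.ofReal_eq_zero]
      exact h0.ne'
    have h1 : ‖((r : 𝕜)⁻¹) • u‖ ≤ ‖y‖ := by
      rw [norm_smul, hrk, hy1, inv_mul_le_iff₀ h0, mul_one]
      exact le_max_left _ _
    have h2 : ‖(r : 𝕜)⁻¹ * c'‖ ≤ 1 := by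
      rw [norm_mul, hrk, inv_mul_le_iff₀ h0, mul_one]
      exact le_max_right _ _
    have h3 := mono_scale hM z 2 hzC hz' (((r : 𝕜)⁻¹) • u) y h1 ((r : 𝕜)⁻¹ * c') h2 1 hxn
    have h4 : Tendsto (fun n => ‖((r : 𝕜)⁻¹) • u + ((r : 𝕜)⁻¹ * c') • z n‖) atTop
        (𝓝 (r⁻¹ * 1)) := by
      refine (hlim2.const_mul r⁻¹).congr (fun n => ?_)
      have h5 : ((r : 𝕜)⁻¹) • u + ((r : 𝕜)⁻¹ * c') • z n = ((r : 𝕜)⁻¹) • (u + c' • z n) := by
        rw [smul_add, smul_smul _ c' (z n)]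
      rw [h5, norm_smul, hrk]
    rw [h4.limsup_eq, hy1] at h3
    have h6 : r⁻¹ ≤ 1 := by linarith
    have h7 : 1 < r⁻¹ := (one_lt_inv₀ h0).mpr hr1
    linarith

end Pool.H30.PM
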