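import Pool.Agent.H30.PM.Basic

/-!
# [H30 PM ER] The mean ergodic step in a reflexive space

`X` reflexive, `T : X → X` with `‖T x‖ < ‖x‖` for all `x ≠ 0`. Then `avgOp T n x → 0` for all `x`.

PROOF.  (This is the argument of the proved file `Pool/Agent/H30/DV/ER.lean`; only the step
`functional_attains` changes, copy the rest.) (0) In a reflexive space a functional `φ ≠ 0` attains
its norm: by Hahn-Banach in the dual (`exists_dual_vector`) there is `ξ` in the bidual, `‖ξ‖ = 1`,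
`ξ φ = ‖φ‖`; `ξ = inclusionInDoubleDual x`, `φ x = ‖φ‖` (`NormedSpace.dual_def`), and `‖x‖ = ‖ξ‖ = 1`
(isometry `NormedSpace.inclusionInDoubleDualLi`, or `‖x‖ ≤ 1` by
`NormedSpace.norm_le_dual_bound`). (1) `‖T^j x‖ ≤ ‖x‖`, so `‖avgOp T n x‖ ≤ ‖x‖`. (2) The range of
`1 - T` is dense: otherwise there is a functional `φ ≠ 0` with `φ (x - T x) = 0` for all `x`; with
`x` from (0): `‖φ‖ = ‖φ x‖ = ‖φ (T x)‖ ≤ ‖φ‖ ‖T x‖ < ‖φ‖ ‖x‖ ≤ ‖φ‖`. (3) For `x = y - T y`,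
`avgOp T n x = (1/n)(y - T^n y) → 0`. (4) Density and (1).
-/

namespace Pool.H30.PM

open Filter Topology

section aux

variable {𝕜 : Type*} [RCLike 𝕜]

private theorem er_sep {E : Type*} [NormedAddCommGroup E] [NormedSpace 𝕜 E] (p : Submodule 𝕜 E)
    (hp : IsClosed (p : Set E)) (x : E) (hx : x ∉ p) :
    ∃ φ : E →L[𝕜] 𝕜, φ ≠ 0 ∧ ∀ y ∈ p, φ y = 0 := by
  let _ : Module ℝ E := RestrictScalars.module ℝ 𝕜 E
  let _ : IsScalarTower ℝ 𝕜 E := RestrictScalars.isScalarTower _ _ _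
  let _ : NormedSpace ℝ E := NormedSpace.restrictScalars _ 𝕜 _
  have hconv : Convex ℝ (p : Set E) := (p.restrictScalars ℝ).convex
  obtain ⟨f, u, hfx, hf⟩ := RCLike.geometric_hahn_banach_point_closed (𝕜 := 𝕜) hconv hp hx
  have hu0 : u < 0 := by
    have := hf 0 p.zero_mem
    simpa using this
  refine ⟨f, ?_, ?_⟩
  · rintro rfl
    simp at hfx
    linarith
  · intro y hy
    by_contra hne
    have h1 := hf ((((u - 1 : ℝ) : 𝕜) * (f y)⁻¹) • y) (p.smul_mem _ hy)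
    rw [map_smul, smul_eq_mul, mul_assoc, inv_mul_cancel₀ hne, mul_one, RCLike.ofReal_re] at h1
    linarith

theorem er_pow_le {E : Type*} [NormedAddCommGroup E] [NormedSpace 𝕜 E] (T : E →L[𝕜] E)
    (hT : ∀ x : E, ‖T x‖ ≤ ‖x‖) (n : ℕ) (x : E) : ‖(T ^ n) x‖ ≤ ‖x‖ := by
  induction n with
  | zero => simp
  | succ n ih =>
    rw [pow_succ', mul_apply_eq_comp]
    exact (hT _).trans ih

theorem er_avg_le {E : Type*} [NormedAddCommGroup E] [NormedSpace 𝕜 E] (T : E →L[𝕜] E)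
    (hT : ∀ x : E, ‖T x‖ ≤ ‖x‖) (n : ℕ) (x : E) : ‖avgOp T n x‖ ≤ ‖x‖ := by
  rcases Nat.eq_zero_or_pos n with h0 | h0
  · subst h0
    simp [avgOp]
  · have h1 : ‖(∑ j ∈ Finset.range n, T ^ j) x‖ ≤ n * ‖x‖ := by
      rw [sum_apply]
      refine (norm_sum_le _ _).trans ?_
      refine (Finset.sum_le_card_nsmul _ _ _ (fun j _ => er_pow_le T hT j x)).trans ?_
      rw [Finset.card_range, nsmul_eq_mul]
    have hn : (0 : ℝ) < n := by exact_mod_cast h0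
    rw [avgOp, smul_apply, norm_smul, norm_inv, RCLike.norm_natCast,
      inv_mul_le_iff₀ hn]
    exact h1

private theorem er_tel {E : Type*} [NormedAddCommGroup E] [NormedSpace 𝕜 E] (T : E →L[𝕜] E)
    (hT : ∀ x : E, ‖T x‖ ≤ ‖x‖) (n : ℕ) (y : E) :
    ‖avgOp T n (y - T y)‖ ≤ (n : ℝ)⁻¹ * (2 * ‖y‖) := by
  have h1 : (∑ j ∈ Finset.range n, T ^ j) (y - T y) = y - (T ^ n) y := by
    rw [sum_apply]
    have h2 : ∀ j ∈ Finset.range n, (T ^ j) (y - T y) = (T ^ j) y - (T ^ (j + 1)) y := by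
      intro j _
      rw [map_sub, pow_succ, mul_apply_eq_comp]
    rw [Finset.sum_congr rfl h2, Finset.sum_range_sub' (fun j => (T ^ j) y)]
    simp
  rw [avgOp, smul_apply, norm_smul, norm_inv, RCLike.norm_natCast, h1]
  refine mul_le_mul_of_nonneg_left ?_ (by positivity)
  refine (norm_sub_le _ _).trans ?_
  have := er_pow_le T hT n y
  linarith


private theorem refl_attains {E : Type*} [NormedAddCommGroup E] [NormedSpace 𝕜 E]
    (hr : Reflexive 𝕜 E) (φ : E →L[𝕜] 𝕜) : ∃ x : E, ‖x‖ ≤ 1 ∧ ‖φ x‖ = ‖φ‖ := by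
  by_cases h0 : φ = 0
  · exact ⟨0, by simp, by rw [h0]; simp⟩
  · obtain ⟨ξ, hξ1, hξ2⟩ := exists_dual_vector 𝕜 φ (norm_ne_zero_iff.mpr h0)
    obtain ⟨x, hx⟩ := hr ξ
    refine ⟨x, ?_, ?_⟩
    · have h1 := (NormedSpace.inclusionInDoubleDualLi (E := E) 𝕜).norm_map x
      have h2 : NormedSpace.inclusionInDoubleDualLi (E := E) 𝕜 x = ξ := hx
      rw [h2, hξ1] at h1
      exact h1.symm.le
    · have h3 : φ x = ξ φ := by
        rw [← hx]
        rfl
      rw [h3, hξ2]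
      simp

end aux

theorem ergodic {𝕜 : Type*} [RCLike 𝕜] {X : Type*} [NormedAddCommGroup X]
    [NormedSpace 𝕜 X] (hr : Reflexive 𝕜 X) (T : X →L[𝕜] X)
    (hT : ∀ x : X, x ≠ 0 → ‖T x‖ < ‖x‖) (x : X) :
    Tendsto (fun n => avgOp T n x) atTop (𝓝 0) := by
  have hT1 : ∀ x : X, ‖T x‖ ≤ ‖x‖ := by
    intro x
    by_cases hx : x = 0
    · rw [hx, map_zero]
    · exact (hT x hx).le
  have hdense : x ∈ (LinearMap.range ((ContinuousLinearMap.id 𝕜 X - T : X →L[𝕜] X) :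
      X →ₗ[𝕜] X)).topologicalClosure := by
    by_contra hx
    obtain ⟨φ, hφ0, hφ⟩ := er_sep _ (Submodule.isClosed_topologicalClosure _) x hx
    obtain ⟨v, hv1, hv⟩ := refl_attains hr φ
    have hφn : 0 < ‖φ‖ := (norm_pos_iff (a := φ)).2 hφ0
    have hv0 : v ≠ 0 := by
      rintro rfl
      rw [map_zero, norm_zero] at hv
      linarith
    have h1 : φ (v - T v) = 0 :=
      hφ _ (Submodule.le_topologicalClosure _ ⟨v, rfl⟩)
    rw [map_sub, sub_eq_zero] at h1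
    have h2 : ‖φ‖ ≤ ‖φ‖ * ‖T v‖ := by
      calc ‖φ‖ = ‖φ (T v)‖ := by rw [← hv, h1]
        _ ≤ ‖φ‖ * ‖T v‖ := φ.le_opNorm _
    have h3 : ‖φ‖ * ‖T v‖ < ‖φ‖ * ‖v‖ := mul_lt_mul_of_pos_left (hT v hv0) hφn
    have h4 : ‖φ‖ * ‖v‖ ≤ ‖φ‖ * 1 := mul_le_mul_of_nonneg_left hv1 hφn.le
    linarith
  rw [Metric.tendsto_atTop]
  intro ε hε
  rw [← SetLike.mem_coe, Submodule.topologicalClosure_coe, Metric.mem_closure_iff] at hdense
  obtain ⟨x', ⟨y, rfl⟩, hx'⟩ := hdense (ε / 2) (by positivity)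
  rw [dist_eq_norm] at hx'
  obtain ⟨N, hN⟩ := exists_nat_gt (2 * ‖y‖ / (ε / 2))
  refine ⟨N + 1, fun n hn => ?_⟩
  have hn0 : (0 : ℝ) < n := by
    have : 0 < n := by omega
    exact_mod_cast this
  have hnN : (N : ℝ) ≤ n := by
    have : N ≤ n := by omega
    exact_mod_cast this
  rw [dist_zero_right]
  have h1 : avgOp T n x = avgOp T n (y - T y) + avgOp T n (x - (y - T y)) := by
    rw [← map_add]
    congr 1
    abel
  have h2 : ‖avgOp T n (y - T y)‖ < ε / 2 := by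
    refine (er_tel T hT1 n y).trans_lt ?_
    rw [inv_mul_lt_iff₀ hn0]
    rw [div_lt_iff₀ (by positivity)] at hN
    have : (N : ℝ) * (ε / 2) ≤ n * (ε / 2) := mul_le_mul_of_nonneg_right hnN (by positivity)
    linarith
  have h3 : ‖avgOp T n (x - (y - T y))‖ < ε / 2 := (er_avg_le T hT1 n _).trans_lt hx'
  rw [h1]
  exact (norm_add_le _ _).trans_lt (by linarith)

end Pool.H30.PM
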