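import Pool.Agent.H30.PM.EA
import Pool.Agent.H30.PM.BC
import Pool.Agent.H30.PM.CV

/-!
# H30/PM/Fin: final assembly
-/

namespace Pool.H30.PM

theorem final {𝕜 : Type*} [RCLike 𝕜] {X : Type*} [NormedAddCommGroup X]
    [NormedSpace 𝕜 X] [CompleteSpace X] [TopologicalSpace.SeparableSpace X]
    (hinf : ¬ FiniteDimensional 𝕜 X) (hr : Reflexive 𝕜 X) (hM : PropertyM 𝕜 X) :
    (∀ (c : 𝕜) (K : X →L[𝕜] X), IsCompactOperator K →
      Attains (c • ContinuousLinearMap.id 𝕜 X + K)) ↔ ¬ BCAP 𝕜 X := by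
  constructor
  · intro h hb
    obtain ⟨c, K, hK, hn⟩ := exists_nonattaining hinf hb
    exact hn (h c K hK)
  · intro hb c K hK
    by_contra hn
    rcases le_or_gt ‖c • ContinuousLinearMap.id 𝕜 X + K‖ ‖c‖ with h | h
    · exact hb (bcap_of_nonattaining hr c K hK h hn)
    · exact hn (attains_essential hr hM c K hK h)

end Pool.H30.PM
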