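import Mathlib

/-!
# [H30 PM SI] The inductive construction in Simons' inequality

`V` a real normed space, `Cs n` a decreasing sequence of nonempty convex sets, `‖y‖ ≥ m` for all
`y ∈ Cs 0`, `δ > 0`, `0 < l < 1`. There are `y n ∈ Cs n` such that the partial sums
`z n = ∑_{k<n} l^k y k` satisfy `‖z (n+1)‖ - ‖z n‖ ≥ l^n (m - 2δ)`.

PROOF.  Choose `y n ∈ Cs n` recursively such that, with `z n = ∑_{k<n} l^k y k`,
(1) `‖z n + l^n y n‖ ≤ inf_{y ∈ Cs n} ‖z n + l^n y‖ + δ (l/2)^(n+1)`.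
(Recursion: for every `z` and `n` there is `y ∈ Cs n` with
`‖z + l^n y‖ ≤ ‖z + l^n y'‖ + δ (l/2)^(n+1)` for all `y' ∈ Cs n` (the infimum of a nonempty set
bounded below by `0`); choose a function `g n z` and define the sequence `(z n)` by
`z 0 = 0`, `z (n+1) = z n + l^n g n (z n)`, `y n = g n (z n)`.)
KEY: `y' = (y n + l y (n+1))/(1+l) ∈ Cs n` (convex, decreasing), and
`z n + l^n y' = (l/(1+l)) z n + (1/(1+l)) z (n+2)`, as `z (n+2) = z n + l^n y n + l^(n+1) y (n+1)`.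
So (1) gives `(1+l) ‖z (n+1)‖ ≤ l ‖z n‖ + ‖z (n+2)‖ + (1+l) δ (l/2)^(n+1)`. With
`D n = (‖z (n+1)‖ - ‖z n‖)/l^n` this says `D n - (1+l) δ l^(n+1)/(2^(n+1) l^(n+1)) ≤ D (n+1)`, i.e.
`D (n+1) ≥ D n - (1+l) δ / 2^(n+1)`. As `D 0 = ‖y 0‖ ≥ m` and `∑ 2^{-(n+1)} ≤ 1`, `1 + l ≤ 2`:
`D n ≥ m - (1+l) δ (1 - 2^{-n}) ≥ m - 2δ` for all `n`.
-/

namespace Pool.H30.PM

private theorem near_min {V : Type*} [NormedAddCommGroup V] [NormedSpace ℝ V]
    (A : Set V) (hA : A.Nonempty) (z : V) (a η : ℝ) (hη : 0 < η) :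
    ∃ y ∈ A, ∀ y' ∈ A, ‖z + a • y‖ ≤ ‖z + a • y'‖ + η := by
  let S : Set ℝ := (fun y => ‖z + a • y‖) '' A
  have hS : S.Nonempty := hA.image _
  have hb : BddBelow S := ⟨0, by rintro _ ⟨y, _, rfl⟩; exact norm_nonneg _⟩
  obtain ⟨s, ⟨y, hy, rfl⟩, hs⟩ := Real.lt_sInf_add_pos hS hη
  refine ⟨y, hy, fun y' hy' => ?_⟩
  have := csInf_le hb ⟨y', hy', rfl⟩
  show ‖z + a • y‖ ≤ ‖z + a • y'‖ + η
  have h2 : ‖z + a • y‖ < sInf S + η := hs
  have h3 : sInf S ≤ ‖z + a • y'‖ := this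
  linarith

theorem simons_construction {V : Type*} [NormedAddCommGroup V] [NormedSpace ℝ V]
    (Cs : ℕ → Set V) (hne : ∀ n, (Cs n).Nonempty) (hconv : ∀ n, Convex ℝ (Cs n))
    (hdec : ∀ n, Cs (n + 1) ⊆ Cs n) (m δ l : ℝ) (hm : ∀ y ∈ Cs 0, m ≤ ‖y‖) (hδ : 0 < δ)
    (hl : 0 < l) (hl1 : l < 1) :
    ∃ y : ℕ → V, (∀ n, y n ∈ Cs n) ∧
      ∀ n, l ^ n * (m - 2 * δ) ≤
        ‖∑ k ∈ Finset.range (n + 1), l ^ k • y k‖ - ‖∑ k ∈ Finset.range n, l ^ k • y k‖ := by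
  classical
  have hch : ∀ (n : ℕ) (z : V), ∃ y ∈ Cs n, ∀ y' ∈ Cs n,
      ‖z + l ^ n • y‖ ≤ ‖z + l ^ n • y'‖ + δ * (l / 2) ^ (n + 1) := fun n z =>
    near_min (Cs n) (hne n) z (l ^ n) (δ * (l / 2) ^ (n + 1)) (by positivity)
  choose g hg1 hg2 using hch
  let z : ℕ → V := fun n => Nat.rec (0 : V) (fun n z => z + l ^ n • g n z) n
  have hz0 : z 0 = 0 := rfl
  have hzs : ∀ n, z (n + 1) = z n + l ^ n • g n (z n) := fun n => rfl
  let y : ℕ → V := fun n => g n (z n)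
  have hsum : ∀ n, ∑ k ∈ Finset.range n, l ^ k • y k = z n := by
    intro n
    induction n with
    | zero => simp [hz0]
    | succ n ih => rw [Finset.sum_range_succ, ih, hzs]
  have hy : ∀ n, y n ∈ Cs n := fun n => hg1 n (z n)
  -- the key inequality
  have hkey : ∀ n, (1 + l) * ‖z (n + 1)‖ ≤ l * ‖z n‖ + ‖z (n + 2)‖ +
      (1 + l) * (δ * (l / 2) ^ (n + 1)) := by
    intro n
    let y' : V := (1 / (1 + l)) • y n + (l / (1 + l)) • y (n + 1)
    have hy' : y' ∈ Cs n := by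
      refine hconv n (hy n) (hdec n (hy (n + 1))) (by positivity) (by positivity) ?_
      field_simp
    have h1 := hg2 n (z n) y' hy'
    have h2 : z n + l ^ n • g n (z n) = z (n + 1) := (hzs n).symm
    rw [h2] at h1
    have h3 : z n + l ^ n • y' = (l / (1 + l)) • z n + (1 / (1 + l)) • z (n + 2) := by
      have e2 : z (n + 2) = z n + l ^ n • y n + l ^ (n + 1) • y (n + 1) := rfl
      rw [e2]
      simp only [y']
      have hne1 : (1 + l) ≠ 0 := by positivity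
      rw [smul_add, smul_add, smul_add, smul_smul, smul_smul, smul_smul, smul_smul]
      have e3 : (l / (1 + l)) • z n + ((1 / (1 + l)) • z n + (1 / (1 + l) * l ^ n) • y n +
          (1 / (1 + l) * l ^ (n + 1)) • y (n + 1)) =
          (l / (1 + l) + 1 / (1 + l)) • z n + ((1 / (1 + l) * l ^ n) • y n +
          (1 / (1 + l) * l ^ (n + 1)) • y (n + 1)) := by
        rw [add_smul]
        abel
      rw [e3]
      have e4 : l / (1 + l) + 1 / (1 + l) = 1 := by field_simp; ring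
      have e5 : l ^ n * (1 / (1 + l)) = 1 / (1 + l) * l ^ n := mul_comm _ _
      have e6 : l ^ n * (l / (1 + l)) = 1 / (1 + l) * l ^ (n + 1) := by
        rw [pow_succ]; ring
      rw [e4, one_smul, e5, e6]
    have h4 : ‖z n + l ^ n • y'‖ ≤ (l / (1 + l)) * ‖z n‖ + (1 / (1 + l)) * ‖z (n + 2)‖ := by
      rw [h3]
      refine (norm_add_le _ _).trans ?_
      rw [norm_smul, norm_smul, Real.norm_of_nonneg (by positivity),
        Real.norm_of_nonneg (by positivity)]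
    have h5 : ‖z (n + 1)‖ ≤ (l / (1 + l)) * ‖z n‖ + (1 / (1 + l)) * ‖z (n + 2)‖ +
        δ * (l / 2) ^ (n + 1) := h1.trans (by linarith)
    have h6 := mul_le_mul_of_nonneg_left h5 (show 0 ≤ 1 + l by linarith)
    have h7 : (1 + l) * ((l / (1 + l)) * ‖z n‖ + (1 / (1 + l)) * ‖z (n + 2)‖ +
        δ * (l / 2) ^ (n + 1)) = l * ‖z n‖ + ‖z (n + 2)‖ +
        (1 + l) * (δ * (l / 2) ^ (n + 1)) := by
      field_simp
    linarith
  -- induction
  have hind : ∀ n, l ^ n * (m - (1 + l) * δ * (1 - (1 / 2) ^ n)) ≤ ‖z (n + 1)‖ - ‖z n‖ := by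
    intro n
    induction n with
    | zero =>
      have h1 : z (0 + 1) = y 0 := by
        rw [hzs 0, hz0, pow_zero, one_smul, zero_add]
        rfl
      rw [h1, hz0]
      simp only [pow_zero, sub_self, mul_zero, sub_zero, one_mul, norm_zero]
      exact hm _ (hy 0)
    | succ n ih =>
      have h1 := hkey n
      have h2 := mul_le_mul_of_nonneg_left ih hl.le
      have h3 : (l / 2) ^ (n + 1) = l ^ (n + 1) * (1 / 2) ^ (n + 1) := by
        rw [← mul_pow]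
        congr 1
        ring
      rw [h3] at h1
      have h4 : l ^ (n + 1) * (m - (1 + l) * δ * (1 - (1 / 2) ^ (n + 1))) =
          l * (l ^ n * (m - (1 + l) * δ * (1 - (1 / 2) ^ n))) -
          (1 + l) * (δ * (l ^ (n + 1) * (1 / 2) ^ (n + 1))) := by
        rw [pow_succ l n, pow_succ (1 / 2 : ℝ) n]
        ring
      rw [h4]
      show _ ≤ ‖z (n + 2)‖ - ‖z (n + 1)‖
      linarith
  refine ⟨y, hy, fun n => ?_⟩
  rw [hsum, hsum]
  refine le_trans ?_ (hind n)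
  refine mul_le_mul_of_nonneg_left ?_ (by positivity)
  have h1 : (0 : ℝ) < (1 / 2) ^ n := by positivity
  have h2 : (1 + l) * δ * (1 - (1 / 2) ^ n) ≤ (1 + l) * δ * 1 :=
    mul_le_mul_of_nonneg_left (by linarith) (by positivity)
  nlinarith

end Pool.H30.PM
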