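import Pool.Agent.H30.PM.Basic
import Pool.Agent.H30.PM.SI

/-!
# [H30 PM SJ] Simons' argument for operators

`Cs n` a decreasing sequence of nonempty convex sets of operators on `X` (complete), all of norm
at most `B`, all elements of `Cs 0` of norm at least `1`, such that for every choice of
`R n ∈ Cs n` one has `R n x → 0` for all `x`. Then for some `y n ∈ Cs n` and `l ∈ (0,1)` the operator
`∑' k, l^k y k` does not attain its norm.

PROOF.  Let `B ≥ 1` without loss of generality (replace `B` by `max B 1`), `δ = 1/8`,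
`l = 1/(4B) ≤ 1/4`; `simons_construction` with `m = 1` gives `y n`. `Z = ∑' k, l^k y k` converges
absolutely (`‖l^k y k‖ ≤ l^k B`). Let `z n` be the partial sums, `z n → Z`. Summing the inequalities
from `n` to `N` and letting `N → ∞`: `‖Z‖ - ‖z n‖ ≥ (3/4) ∑_{k ≥ n} l^k ≥ (3/4) l^n`. Suppose `Z`
attains its norm: `‖x‖ = 1`, `‖Z x‖ = ‖Z‖`. Then for every `n`
`l^n ‖y n x‖ ≥ ‖Z x‖ - ‖z n x‖ - ∑_{k>n} l^k ‖y k x‖ ≥ ‖Z‖ - ‖z n‖ - B l^(n+1)/(1-l)`
`≥ (3/4) l^n - l^n (1/4)/(3/4) = (3/4 - 1/3) l^n` (as `B l = 1/4`, `1 - l ≥ 3/4`). So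
`‖y n x‖ ≥ 5/12` for all `n`, contradiction with `y n x → 0`.
-/

namespace Pool.H30.PM

open Filter Topology

theorem simons_operators {𝕜 : Type*} [RCLike 𝕜] {X : Type*} [NormedAddCommGroup X]
    [NormedSpace 𝕜 X] [NormedSpace ℝ X] [IsScalarTower ℝ 𝕜 X] [CompleteSpace X]
    (Cs : ℕ → Set (X →L[𝕜] X)) (hne : ∀ n, (Cs n).Nonempty) (hconv : ∀ n, Convex ℝ (Cs n))
    (hdec : ∀ n, Cs (n + 1) ⊆ Cs n) (B : ℝ) (hB : ∀ n, ∀ R ∈ Cs n, ‖R‖ ≤ B)
    (h1 : ∀ R ∈ Cs 0, 1 ≤ ‖R‖)
    (h0 : ∀ R : ℕ → (X →L[𝕜] X), (∀ n, R n ∈ Cs n) →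
      ∀ x, Tendsto (fun n => R n x) atTop (𝓝 0)) :
    ∃ (y : ℕ → (X →L[𝕜] X)) (l : ℝ), (∀ n, y n ∈ Cs n) ∧ 0 < l ∧ l < 1 ∧
      ¬ Attains (∑' k, ((l ^ k : ℝ) : 𝕜) • y k) := by
  classical
  obtain ⟨R0, hR0⟩ := hne 0
  have hB1 : 1 ≤ B := (h1 R0 hR0).trans (hB 0 R0 hR0)
  set l : ℝ := 1 / (4 * B) with hl
  have hl0 : 0 < l := by positivity
  have hlB : l * B = 1 / 4 := by rw [hl]; field_simp
  have hl4 : l ≤ 1 / 4 := by
    rw [hl, div_le_div_iff₀ (by positivity) (by norm_num)]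
    linarith
  obtain ⟨y, hy, hyi⟩ := simons_construction Cs hne hconv hdec 1 (1 / 8) l h1 (by norm_num)
    hl0 (by linarith)
  refine ⟨y, l, hy, hl0, by linarith, ?_⟩
  -- the real and the complex scalar action agree
  have hsm : ∀ (k : ℕ), ((l ^ k : ℝ) : 𝕜) • y k = l ^ k • y k := by
    intro k
    ext x
    rw [ContinuousLinearMap.smul_apply, ContinuousLinearMap.smul_apply]
    exact (RCLike.real_smul_eq_coe_smul (K := 𝕜) (l ^ k) (y k x)).symm
  have hsum : Summable (fun k => l ^ k • y k) := by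
    refine Summable.of_norm_bounded (g := fun k => l ^ k * B)
      ((summable_geometric_of_lt_one hl0.le (by linarith)).mul_right B) (fun k => ?_)
    rw [norm_smul, Real.norm_of_nonneg (by positivity)]
    exact mul_le_mul_of_nonneg_left (hB k _ (hy k)) (by positivity)
  set Z : X →L[𝕜] X := ∑' k, ((l ^ k : ℝ) : 𝕜) • y k with hZ
  have hZs : HasSum (fun k => l ^ k • y k) Z := by
    rw [hZ]
    simp only [hsm]
    exact hsum.hasSum
  let z : ℕ → (X →L[𝕜] X) := fun n => ∑ k ∈ Finset.range n, l ^ k • y k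
  have hz : Tendsto z atTop (𝓝 Z) := hZs.tendsto_sum_nat
  have hstep : ∀ n, l ^ n * (3 / 4) ≤ ‖z (n + 1)‖ - ‖z n‖ := by
    intro n
    have := hyi n
    have e : (1 : ℝ) - 2 * (1 / 8) = 3 / 4 := by norm_num
    rw [e] at this
    exact this
  have hmono : ∀ n m, n ≤ m → ‖z n‖ ≤ ‖z m‖ := by
    intro n m hnm
    have hm : Monotone (fun k => ‖z k‖) := by
      refine monotone_nat_of_le_succ (fun k => ?_)
      have h3 := hstep k
      have h4 : 0 ≤ l ^ k * (3 / 4) := by positivity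
      show ‖z k‖ ≤ ‖z (k + 1)‖
      linarith
    exact hm hnm
  have hZz : ∀ n, l ^ n * (3 / 4) ≤ ‖Z‖ - ‖z n‖ := by
    intro n
    have h2 : ‖z (n + 1)‖ ≤ ‖Z‖ := by
      refine ge_of_tendsto hz.norm ?_
      filter_upwards [eventually_ge_atTop (n + 1)] with m hm
      exact hmono _ _ hm
    have := hstep n
    linarith
  rintro ⟨x, hx1, hx2⟩
  -- lower bound for the y n x
  have hlow : ∀ n, 5 / 12 ≤ ‖y n x‖ := by
    intro n
    have htail : ‖Z - z (n + 1)‖ ≤ l ^ (n + 1) * B / (1 - l) := by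
      have h3 : HasSum (fun k => l ^ (k + (n + 1)) • y (k + (n + 1))) (Z - z (n + 1)) := by
        have := (hasSum_nat_add_iff' (f := fun k => l ^ k • y k) (n + 1)).mpr hZs
        exact this
      have h4 : HasSum (fun k : ℕ => l ^ (n + 1) * B * l ^ k) (l ^ (n + 1) * B * (1 - l)⁻¹) :=
        (hasSum_geometric_of_lt_one hl0.le (by linarith)).mul_left _
      rw [div_eq_mul_inv, ← h3.tsum_eq]
      refine tsum_of_norm_bounded h4 (fun k => ?_)
      rw [norm_smul, Real.norm_of_nonneg (by positivity), pow_add]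
      have h5 := hB _ _ (hy (k + (n + 1)))
      calc l ^ k * l ^ (n + 1) * ‖y (k + (n + 1))‖ ≤ l ^ k * l ^ (n + 1) * B :=
            mul_le_mul_of_nonneg_left h5 (by positivity)
        _ = l ^ (n + 1) * B * l ^ k := by ring
    have h6 : z (n + 1) = z n + l ^ n • y n := Finset.sum_range_succ _ _
    have h7 : Z x = z n x + l ^ n • y n x + (Z - z (n + 1)) x := by
      rw [h6]
      simp only [ContinuousLinearMap.sub_apply, ContinuousLinearMap.add_apply,
        ContinuousLinearMap.smul_apply]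
      abel
    have h8 : ‖Z x‖ ≤ ‖z n‖ + l ^ n * ‖y n x‖ + l ^ (n + 1) * B / (1 - l) := by
      rw [h7]
      refine (norm_add_le _ _).trans (add_le_add ((norm_add_le _ _).trans (add_le_add ?_ ?_)) ?_)
      · exact ((z n).le_opNorm x).trans (by rw [hx1, mul_one])
      · rw [norm_smul, Real.norm_of_nonneg (by positivity)]
      · exact ((Z - z (n + 1)).le_opNorm x).trans (by rw [hx1, mul_one]; exact htail)
    rw [hx2] at h8
    have h9 := hZz n
    have h10 : l ^ (n + 1) * B / (1 - l) ≤ l ^ n * (1 / 3) := by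
      rw [pow_succ, mul_assoc, hlB, div_le_iff₀ (by linarith)]
      have : 0 < l ^ n := by positivity
      nlinarith
    have h11 : 0 < l ^ n := by positivity
    have h12 : l ^ n * (5 / 12) ≤ l ^ n * ‖y n x‖ := by linarith
    exact le_of_mul_le_mul_left h12 h11
  have h13 := (h0 y hy x).norm
  rw [norm_zero] at h13
  have h14 : (5 / 12 : ℝ) ≤ 0 := ge_of_tendsto h13 (Eventually.of_forall hlow)
  norm_num at h14

end Pool.H30.PM
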