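import Pool.Agent.H30.PM.DS

/-!
# [H30 PM WE] Weakly convergent subsequences in separable reflexive spaces

`X` separable and reflexive, `x n` with `‖x n‖ ≤ C`. There are a strictly increasing `φ` and `y`
with `‖y‖ ≤ C` such that `x (φ n) - y` is weakly null.

PROOF.  The dual is separable (`dual_separable`); let `f k` be dense in it
(`TopologicalSpace.denseSeq`). The points `k ↦ f k (x n)` lie in the compact subset
`∏_k closedBall 0 (‖f k‖ C)` of the first countable space `ℕ → 𝕜`: there is a strictly increasing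
`φ` such that `f k (x (φ n))` converges for all `k` (`IsCompact.tendsto_subseq`). Then for every
functional `f` the sequence `f (x (φ n))` is Cauchy (given `ε` take `k` with `‖f - f k‖ C ≤ ε/3`),
so it converges to a number `L f`. `L` is linear in `f` and `‖L f‖ ≤ C ‖f‖`
(`LinearMap.mkContinuous`), so `L` is an element of the bidual with `‖L‖ ≤ C`; by reflexivity
`L = inclusionInDoubleDual y`, i.e. `f y = L f` for all `f`
(`NormedSpace.dual_def`), and `‖y‖ ≤ C` because the inclusion is an isometry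
(`NormedSpace.inclusionInDoubleDualLi`), or by Hahn-Banach (`NormedSpace.norm_le_dual_bound`).
-/

namespace Pool.H30.PM

open Filter Topology

theorem weak_extract {𝕜 : Type*} [RCLike 𝕜] {X : Type*} [NormedAddCommGroup X]
    [NormedSpace 𝕜 X] [TopologicalSpace.SeparableSpace X] (hr : Reflexive 𝕜 X)
    (x : ℕ → X) (C : ℝ) (hC : ∀ n, ‖x n‖ ≤ C) :
    ∃ (φ : ℕ → ℕ) (y : X), StrictMono φ ∧ ‖y‖ ≤ C ∧ WN 𝕜 (fun n => x (φ n) - y) := by
  classical
  have hC0 : 0 ≤ C := (norm_nonneg _).trans (hC 0)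
  haveI := dual_separable (𝕜 := 𝕜) (X := X) hr
  let D : ℕ → (X →L[𝕜] 𝕜) := TopologicalSpace.denseSeq (X →L[𝕜] 𝕜)
  have hD : DenseRange D := TopologicalSpace.denseRange_denseSeq _
  have hcomp : IsCompact (Set.univ.pi (fun k : ℕ => Metric.closedBall (0 : 𝕜) (‖D k‖ * C))) :=
    isCompact_univ_pi (fun _ => isCompact_closedBall 0 _)
  have hmem : ∀ n, (fun k => D k (x n)) ∈
      Set.univ.pi (fun k : ℕ => Metric.closedBall (0 : 𝕜) (‖D k‖ * C)) := by
    intro n k _
    rw [Metric.mem_closedBall, dist_zero_right]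
    exact ((D k).le_opNorm _).trans (mul_le_mul_of_nonneg_left (hC n) (norm_nonneg (D k)))
  obtain ⟨g, -, φ, hφ, hlim⟩ := hcomp.tendsto_subseq hmem
  rw [tendsto_pi_nhds] at hlim
  -- every functional converges along the subsequence
  have hcau : ∀ f : X →L[𝕜] 𝕜, CauchySeq (fun n => f (x (φ n))) := by
    intro f
    rw [Metric.cauchySeq_iff]
    intro ε hε
    have hε' : 0 < ε / (4 * (C + 1)) := by positivity
    obtain ⟨k, hk⟩ := (Metric.denseRange_iff.mp hD) f (ε / (4 * (C + 1))) hε'
    rw [dist_eq_norm] at hk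
    have hck : CauchySeq (fun n => D k (x (φ n))) := (hlim k).cauchySeq
    obtain ⟨N, hN⟩ := (Metric.cauchySeq_iff.mp hck) (ε / 2) (by positivity)
    refine ⟨N, fun m hm n hn => ?_⟩
    have h1 := hN m hm n hn
    rw [dist_eq_norm] at h1 ⊢
    have h2 : ∀ j, ‖(f - D k) (x (φ j))‖ ≤ ε / 4 := by
      intro j
      calc ‖(f - D k) (x (φ j))‖ ≤ ‖f - D k‖ * ‖x (φ j)‖ := ContinuousLinearMap.le_opNorm _ _
        _ ≤ (ε / (4 * (C + 1))) * C := by
            exact mul_le_mul hk.le (hC _) (norm_nonneg _) hε'.le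
        _ = (ε / 4) * (C / (C + 1)) := by field_simp
        _ ≤ (ε / 4) * 1 := by
            apply mul_le_mul_of_nonneg_left _ (by positivity)
            rw [div_le_one (by positivity)]
            linarith
        _ = ε / 4 := mul_one _
    have e1 : f (x (φ m)) - f (x (φ n)) = (D k (x (φ m)) - D k (x (φ n))) +
        ((f - D k) (x (φ m)) - (f - D k) (x (φ n))) := by
      rw [ContinuousLinearMap.sub_apply, ContinuousLinearMap.sub_apply]
      ring
    rw [e1]
    have h3 := norm_add_le (D k (x (φ m)) - D k (x (φ n)))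
      ((f - D k) (x (φ m)) - (f - D k) (x (φ n)))
    have h4 := norm_sub_le ((f - D k) (x (φ m))) ((f - D k) (x (φ n)))
    have h5 := h2 m
    have h6 := h2 n
    linarith
  have hL : ∀ f : X →L[𝕜] 𝕜, ∃ l : 𝕜, Tendsto (fun n => f (x (φ n))) atTop (𝓝 l) :=
    fun f => cauchySeq_tendsto_of_complete (hcau f)
  choose L hLt using hL
  let Lm : (X →L[𝕜] 𝕜) →L[𝕜] 𝕜 := LinearMap.mkContinuous
    { toFun := L
      map_add' := fun f g => tendsto_nhds_unique (hLt (f + g)) ((hLt f).add (hLt g))
      map_smul' := fun c f => tendsto_nhds_unique (hLt (c • f)) ((hLt f).const_mul c) } C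
    (fun f => by
      have h1 : ‖L f‖ ≤ ‖f‖ * C := by
        refine le_of_tendsto (hLt f).norm (Eventually.of_forall (fun n => ?_))
        exact (f.le_opNorm _).trans (mul_le_mul_of_nonneg_left (hC _) (norm_nonneg f))
      calc ‖L f‖ ≤ ‖f‖ * C := h1
        _ = C * ‖f‖ := mul_comm _ _)
  have hLmn : ‖Lm‖ ≤ C := LinearMap.mkContinuous_norm_le _ hC0 _
  obtain ⟨y, hy⟩ := hr Lm
  have hyf : ∀ f : X →L[𝕜] 𝕜, f y = L f := by
    intro f
    have h1 : f y = NormedSpace.inclusionInDoubleDual 𝕜 X y f := rfl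
    rw [h1, hy]
    rfl
  refine ⟨φ, y, hφ, ?_, ?_⟩
  · have h1 := (NormedSpace.inclusionInDoubleDualLi (E := X) 𝕜).norm_map y
    have h2 : NormedSpace.inclusionInDoubleDualLi (E := X) 𝕜 y = Lm := hy
    rw [h2] at h1
    rw [← h1]
    exact hLmn
  · intro f
    have h1 : Tendsto (fun n => f (x (φ n)) - f y) atTop (𝓝 (L f - f y)) :=
      (hLt f).sub tendsto_const_nhds
    rw [hyf f, sub_self] at h1
    refine h1.congr (fun n => ?_)
    rw [map_sub, hyf f]

end Pool.H30.PM
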